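import Pool.Agent.H655.CM.Mfd

/-!
The code of an open subset of a Hausdorff space which is covered by a sequence of charts.
-/

open Set Filter Topology

namespace Pool.Agent.H655.MC

open Pool.Agent.H655.CM

variable {E : Type} [NormedAddCommGroup E] [NormedSpace ℝ E]
variable {X : Type} [TopologicalSpace X]

/-- `f` is an open embedding of the open set `U`. -/
structure OX (f : E → X) (U : Set E) : Prop where
  op : IsOpen U
  cont : ContinuousOn f U
  inj : InjOn f U
  img : ∀ V ⊆ U, IsOpen V → IsOpen (f '' V)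

theorem OX.isOpen_image {f : E → X} {U : Set E} (h : OX f U) : IsOpen (f '' U) :=
  h.img U Subset.rfl h.op

theorem OX.mono {f : E → X} {U V : Set E} (h : OX f U) (hV : V ⊆ U) (ho : IsOpen V) : OX f V :=
  ⟨ho, h.cont.mono hV, h.inj.mono hV, fun W hW => h.img W (hW.trans hV)⟩

theorem OX.map_nhds {f : E → X} {U : Set E} (h : OX f U) {x : E} (hx : x ∈ U) :
    map f (𝓝 x) = 𝓝 (f x) := by
  refine le_antisymm (h.cont.continuousAt (h.op.mem_nhds hx)) ?_
  intro A hA
  rw [mem_map] at hA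
  obtain ⟨N, hN, hNo, hxN⟩ := mem_nhds_iff.1 (inter_mem hA (h.op.mem_nhds hx))
  refine mem_of_superset ((h.img N (fun y hy => (hN hy).2) hNo).mem_nhds ⟨x, hxN, rfl⟩) ?_
  rintro _ ⟨y, hy, rfl⟩
  exact (hN hy).1

/-- The gluing domains. -/
def fV (U : ℕ → Set E) (f : ℕ → E → X) (i j : ℕ) : Set E := {x | x ∈ U i ∧ f i x ∈ f j '' U j}

open Classical in
/-- The gluing maps. -/
noncomputable def fφ (U : ℕ → Set E) (f : ℕ → E → X) (i j : ℕ) (x : E) : E :=
  if h : f i x ∈ f j '' U j then (if x ∈ U i then h.choose else 0) else 0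

theorem fφ_spec {U : ℕ → Set E} {f : ℕ → E → X} {i j : ℕ} {x : E} (hx : x ∈ fV U f i j) :
    fφ U f i j x ∈ U j ∧ f j (fφ U f i j x) = f i x := by
  unfold fφ
  rw [dif_pos hx.2, if_pos hx.1]
  exact hx.2.choose_spec

theorem fφ_eq {U : ℕ → Set E} {f : ℕ → E → X} (hf : ∀ i, OX (f i) (U i)) {i j : ℕ} {x y : E}
    (hx : x ∈ U i) (hy : y ∈ U j) (h : f i x = f j y) : fφ U f i j x = y := by
  have h1 : x ∈ fV U f i j := ⟨hx, y, hy, h.symm⟩
  have h2 := fφ_spec h1
  exact (hf j).inj h2.1 hy (h2.2.trans h)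

theorem fV_open {U : ℕ → Set E} {f : ℕ → E → X} (hf : ∀ i, OX (f i) (U i)) (i j : ℕ) :
    IsOpen (fV U f i j) :=
  (hf i).cont.isOpen_inter_preimage (hf i).op (hf j).isOpen_image

variable [T2Space X]

/-- The code of the union of the charts. -/
noncomputable def codeF (U : ℕ → Set E) (f : ℕ → E → X) (hf : ∀ i, OX (f i) (U i)) : Code E where
  V := fV U f
  φ := fφ U f
  isOpen := fV_open hf
  sub i j x hx := ⟨hx.1, x, hx.1, rfl⟩
  refl i x hx := fφ_eq hf hx.1 hx.1 rfl
  cocycle i j k x hx hx' := by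
    have h1 := fφ_spec hx
    have h2 := fφ_spec hx'
    refine ⟨⟨h1.1, ?_⟩, ?_⟩
    · rw [h1.2]
      exact hx'.2
    · exact fφ_eq hf h1.1 h2.1 (h1.2.trans h2.2.symm)
  cont i j := by
    rw [continuousOn_open_iff (fV_open hf i j)]
    intro A hA
    have h1 := (hf i).cont.isOpen_inter_preimage (hf i).op
      ((hf j).img (U j ∩ A) inter_subset_left ((hf j).op.inter hA))
    convert h1 using 1
    ext x
    constructor
    · rintro ⟨hx, hA⟩
      have h2 := fφ_spec hx
      exact ⟨hx.1, _, ⟨h2.1, hA⟩, h2.2⟩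
    · rintro ⟨hx, y, ⟨hy, hyA⟩, h⟩
      refine ⟨⟨hx, y, hy, h⟩, ?_⟩
      show fφ U f i j x ∈ A
      rw [fφ_eq hf hx hy h.symm]
      exact hyA
  off i j x hx := by
    show fφ U f i j x = 0
    unfold fφ
    by_cases h1 : f i x ∈ f j '' U j
    · rw [dif_pos h1, if_neg]
      exact fun h2 => hx ⟨h2, h1⟩
    · rw [dif_neg h1]
  haus i j x hx y hy h := by
    have hne : f i x ≠ f j y := by
      intro h2
      exact h ⟨⟨hx.1, y, hy.1, h2.symm⟩, fφ_eq hf hx.1 hy.1 h2⟩
    obtain ⟨A, B, hA, hB, hxA, hyB, hAB⟩ := t2_separation hne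
    have h1 : ∀ᶠ p : E × E in 𝓝 (x, y), f i p.1 ∈ A ∧ f j p.2 ∈ B := by
      rw [nhds_prod_eq]
      have a1 : ∀ᶠ x' in 𝓝 x, f i x' ∈ A :=
        ((hf i).cont.continuousAt ((hf i).op.mem_nhds hx.1)) (hA.mem_nhds hxA)
      have a2 : ∀ᶠ y' in 𝓝 y, f j y' ∈ B :=
        ((hf j).cont.continuousAt ((hf j).op.mem_nhds hy.1)) (hB.mem_nhds hyB)
      exact a1.prod_mk a2
    filter_upwards [h1] with p hp hn
    have h2 := (fφ_spec hn.1).2
    have h3 : fφ U f i j p.1 = p.2 := hn.2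
    rw [h3] at h2
    exact Set.disjoint_left.1 hAB hp.1 (h2 ▸ hp.2)

variable {U : ℕ → Set E} {f : ℕ → E → X} {hf : ∀ i, OX (f i) (U i)}

theorem codeF_V (i : ℕ) : (codeF U f hf).V i i = U i := by
  ext x
  exact ⟨fun h => h.1, fun h => ⟨h, x, h, rfl⟩⟩

/-- The point of the space given by a point of the coded manifold. -/
noncomputable def toX (U : ℕ → Set E) (f : ℕ → E → X) (hf : ∀ i, OX (f i) (U i))
    (z : (codeF U f hf).Pts) : X :=
  f ((codeF U f hf).exists_idx z).choose ((codeF U f hf).exists_idx z).choose_spec.choose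

theorem toX_eq {z : (codeF U f hf).Pts} {i : ℕ} {x : E} (h : (i, x) ∈ z.val) :
    toX U f hf z = f i x := by
  have h1 := ((codeF U f hf).exists_idx z).choose_spec.choose_spec
  set j := ((codeF U f hf).exists_idx z).choose with hj
  have h2 : ∃ y, (j, y) ∈ z.val := ((codeF U f hf).exists_idx z).choose_spec
  show f j h2.choose = f i x
  have h1 : (j, h2.choose) ∈ z.val := h2.choose_spec
  have h3 := (mem_iff z.mem _).1 h1
  have h4 := (mem_iff z.mem _).1 h
  have h5 := (cls_eq_iff h4.1).1 (h3.2.symm.trans h4.2)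
  have h6 := (fφ_spec h5.1).2
  have h7 : fφ U f j i h2.choose = x := h5.2
  rw [h7] at h6
  exact h6.symm

theorem toX_mk {i : ℕ} {x : E} (h : x ∈ (codeF U f hf).V i i) :
    toX U f hf ((codeF U f hf).mk' i ⟨x, h⟩) = f i x :=
  toX_eq (mem_cls_self h)

theorem toX_range : range (toX U f hf) = ⋃ i, f i '' U i := by
  ext w
  rw [mem_iUnion]
  constructor
  · rintro ⟨z, rfl⟩
    obtain ⟨i, x, h⟩ := (codeF U f hf).exists_idx z
    rw [toX_eq h]
    exact ⟨i, x, ((mem_iff z.mem _).1 h).1.1, rfl⟩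
  · rintro ⟨i, x, hx, rfl⟩
    have h1 : x ∈ (codeF U f hf).V i i := by rw [codeF_V]; exact hx
    exact ⟨_, toX_mk h1⟩

theorem toX_inj : Function.Injective (toX U f hf) := by
  intro z w h
  obtain ⟨i, x, hx⟩ := (codeF U f hf).exists_idx z
  obtain ⟨j, y, hy⟩ := (codeF U f hf).exists_idx w
  rw [toX_eq hx, toX_eq hy] at h
  have h3 := (mem_iff z.mem _).1 hx
  have h4 := (mem_iff w.mem _).1 hy
  apply Code.Pts.ext
  have h5 : x ∈ (codeF U f hf).V i j ∧ (codeF U f hf).φ i j x = y :=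
    ⟨⟨h3.1.1, y, h4.1.1, h.symm⟩, fφ_eq hf h3.1.1 h4.1.1 h⟩
  exact h3.2.trans (((cls_eq_iff h4.1).2 h5).trans h4.2.symm)

theorem toX_open : IsOpenEmbedding (toX U f hf) := by
  refine .of_continuous_injective_isOpenMap ?_ toX_inj ?_
  · rw [continuous_def]
    intro A hA
    rw [Code.isOpen_iff]
    intro i
    have h1 := (hf i).cont.isOpen_inter_preimage (hf i).op hA
    convert h1 using 1
    ext x
    constructor
    · rintro ⟨h, hx⟩
      have hx' : toX U f hf ((codeF U f hf).mk' i ⟨x, h⟩) ∈ A := hx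
      rw [toX_mk] at hx'
      exact ⟨h.1, hx'⟩
    · rintro ⟨hx, hA⟩
      have h : x ∈ (codeF U f hf).V i i := by rw [codeF_V]; exact hx
      refine ⟨h, ?_⟩
      show toX U f hf ((codeF U f hf).mk' i ⟨x, h⟩) ∈ A
      rw [toX_mk]
      exact hA
  · intro W hW
    rw [Code.isOpen_iff] at hW
    have h1 : toX U f hf '' W = ⋃ i, f i ''
        {x : E | ∃ h : x ∈ (codeF U f hf).V i i, (codeF U f hf).mk' i ⟨x, h⟩ ∈ W} := by
      ext w
      rw [mem_iUnion]
      constructor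
      · rintro ⟨z, hz, rfl⟩
        obtain ⟨i, x, h⟩ := (codeF U f hf).exists_idx z
        have h3 := (mem_iff z.mem _).1 h
        refine ⟨i, x, ⟨h3.1, ?_⟩, (toX_eq h).symm⟩
        have : (codeF U f hf).mk' i ⟨x, h3.1⟩ = z := Code.Pts.ext h3.2.symm
        rw [this]
        exact hz
      · rintro ⟨i, x, ⟨h, hx⟩, rfl⟩
        exact ⟨_, hx, toX_mk h⟩
    rw [h1]
    exact isOpen_iUnion fun i => (hf i).img _ (fun x hx => hx.1.1) (hW i)

/-- The coded manifold is the union of the charts. -/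
noncomputable def codeF_homeo : (codeF U f hf).Pts ≃ₜ (⋃ i, f i '' U i : Set X) :=
  toX_open.toIsEmbedding.toHomeomorph.trans (Homeomorph.setCongr toX_range)

end Pool.Agent.H655.MC
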