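import Pool.Agent.H655.MC.Mes
import Pool.Agent.H655.CM.Open

/-!
Existence of embeddings of the basic ball with prescribed approximate values.
-/

open Set Filter Topology
open scoped MeasureTheory

namespace Pool.Agent.H655.MC

open Pool.Agent.H655.CM

variable {E : Type} [NormedAddCommGroup E] [NormedSpace ℝ E] [FiniteDimensional ℝ E]

theorem OX_id {U : Set E} (hU : IsOpen U) : OX (id : E → E) U :=
  ⟨hU, continuousOn_id, fun _ _ _ _ h => h, fun V _ hV => by rwa [image_id]⟩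

open Classical in
/-- The code of the model space. -/
noncomputable def d₀ (E : Type) [NormedAddCommGroup E] [NormedSpace ℝ E]
    [FiniteDimensional ℝ E] : Code E :=
  codeF (fun i => if i = 0 then (univ : Set E) else ∅) (fun _ => id) (by
    intro i
    refine OX_id ?_
    by_cases h : i = 0
    · simp only [if_pos h]
      exact isOpen_univ
    · simp only [if_neg h]
      exact isOpen_empty)

theorem d₀_V : (d₀ E).V 0 0 = univ := by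
  have : (d₀ E).V 0 0 = (if (0 : ℕ) = 0 then (univ : Set E) else ∅) := codeF_V 0
  rw [this, if_pos rfl]

theorem d₀_mem (x : E) : x ∈ (d₀ E).V 0 0 := by rw [d₀_V]; trivial

theorem d₀_valid : valid (d₀ E) [b₀] := by
  intro b hb
  rw [List.mem_singleton.1 hb]
  intro x _
  exact d₀_mem x

theorem d₀_K : K (d₀ E) [b₀] = cls (d₀ E) 0 '' cb b₀ := by
  ext z
  constructor
  · rintro ⟨b, hb, x, hx, rfl⟩
    rw [List.mem_singleton.1 hb] at hx ⊢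
    exact ⟨x, hx, rfl⟩
  · rintro ⟨x, hx, rfl⟩
    exact ⟨b₀, List.mem_singleton.2 rfl, x, hx, rfl⟩

/-- The set of codes which admit an embedding with prescribed approximate values. -/
def OL (E : Type) [NormedAddCommGroup E] [NormedSpace ℝ E] [FiniteDimensional ℝ E]
    (L : List ((ℕ × ℕ × ℕ) × ℕ × (ℕ × ℕ × ℕ))) : Set (Code E) :=
  {c | ∃ (e : Pt E → Pt E) (h : Emb (d₀ E) [b₀] c e), ∀ q ∈ L,
    (⟨c, e, h⟩ : Y (d₀ E) [b₀]) ∈ SE (d₀ E) [b₀] 0 q.2.1 q.1 (ob q.2.2)}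

theorem OP_list {y₀ : Y (d₀ E) [b₀]} (L : List ((ℕ × ℕ × ℕ) × ℕ × (ℕ × ℕ × ℕ)))
    (h : ∀ q ∈ L, y₀ ∈ SE (d₀ E) [b₀] 0 q.2.1 q.1 (ob q.2.2)) :
    OP y₀ {y | ∀ q ∈ L, y ∈ SE (d₀ E) [b₀] 0 q.2.1 q.1 (ob q.2.2)} := by
  induction L with
  | nil =>
    refine OP_mono (OP_univ y₀) ?_
    intro y _ q hq
    simp at hq
  | cons q L ih =>
    have h1 := ih (fun q' hq' => h q' (List.mem_cons_of_mem _ hq'))
    have h2 := OP_SE (ob_open q.2.2) (h q List.mem_cons_self)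
    refine OP_mono (OP_inter h2 h1) ?_
    rintro y ⟨h3, h4⟩ q' hq'
    rcases List.mem_cons.1 hq' with rfl | h5
    · exact h3
    · exact h4 q' h5

theorem OL_open (L : List ((ℕ × ℕ × ℕ) × ℕ × (ℕ × ℕ × ℕ))) : IsOpen (OL E L) := by
  rw [isOpen_iff_eventually]
  rintro c₀ ⟨e, hemb, hL⟩
  obtain ⟨t₂, ht₂, hop₂⟩ := OP_list (y₀ := ⟨c₀, e, hemb⟩) L hL
  obtain ⟨O₂, hO₂, hinj₂, hLD₂⟩ := id hemb
  have hKO₂ : ∀ z ∈ K (d₀ E) [b₀], z ∈ O₂ := fun z hz =>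
    nh_self (K_sub_M d₀_valid hz) (P := fun z => z ∈ O₂) (hO₂ z hz)
  obtain ⟨u₂, hu₂, hcu₂, _⟩ := image_cover (e := e) (c := c₀) (W := univ) d₀_valid
    (fun z hz => (hLD₂ z (hKO₂ z hz)).tendsto) (fun z hz => (hLD₂ z (hKO₂ z hz)).mem_tgt)
    (fun z _ => Filter.univ_mem)
  have hvt' : valid c₀ (t₂ ++ u₂) := valid_append ht₂ hu₂
  obtain ⟨t, ht, hcov, _⟩ := enlarge (W := univ) hvt' (fun z _ => Filter.univ_mem)
  have hKt : ∀ z ∈ K c₀ (t₂ ++ u₂), z ∈ K c₀ t := fun z hz =>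
    nh_self (K_sub_M hvt' hz) (P := fun z => z ∈ K c₀ t) (hcov z hz)
  obtain ⟨ι, hι, hιe⟩ := transfer_emb (l := 𝓝 c₀) (c := id) (conv_of_tendsto tendsto_id) ht
  have hι₂ : ∀ z ∈ K c₀ t₂, MC (𝓝 c₀) (fun _ => c₀) c₀ id c₀ ι id z := fun z hz =>
    hι z (hKt z (by rw [K_append]; exact Or.inl hz))
  have e₂ := hop₂ (Code E) (𝓝 c₀) id ι tendsto_id hι₂
  have n₂ : ∀ z ∈ K (d₀ E) [b₀], K c₀ t ∈ nh c₀ (e z) := by
    intro z hz
    refine hcov _ ?_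
    rw [K_append]
    exact Or.inr (nh_self (hLD₂ z (hKO₂ z hz)).mem_tgt (P := fun w => w ∈ K c₀ u₂) (hcu₂ z hz))
  filter_upwards [hιe, e₂] with c hc1 hc2
  have hE₂ : Emb (d₀ E) [b₀] c (ι c ∘ e) := hemb.post d₀_valid n₂ hc1.1 hc1.2
  exact ⟨ι c ∘ e, hE₂, hc2 hE₂⟩

variable {X : Type} [MetricSpace X] {a : ℕ → X} {η : ℕ → ℕ → ℝ} {F : ℕ → ℕ → ℕ → ℝ}
  {f : ℕ → E → X}

/-- Test charts. -/
def TC (g : E → X) : Prop := ∃ U, (cb b₀ : Set E) ⊆ U ∧ OX g U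

theorem OX_of_map {g : E → X} {U : Set E} (hU : IsOpen U) (hinj : InjOn g U)
    (h : ∀ x ∈ U, map g (𝓝 x) = 𝓝 (g x)) : OX g U := by
  refine ⟨hU, ?_, hinj, ?_⟩
  · intro x hx
    have : ContinuousAt g x := (h x hx).le
    exact this.continuousWithinAt
  · intro V hV hVo
    rw [isOpen_iff_mem_nhds]
    rintro _ ⟨x, hx, rfl⟩
    rw [← h x (hV hx)]
    exact image_mem_map (hVo.mem_nhds hx)

/-- The map from the points of the code to the space. -/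
noncomputable def RF.hX (h : RF η F X a f) (z : Pt E) : X := by
  classical
  exact if hz : z ∈ M h.code then toX _ f (fun i => (h.gc i).ox) ⟨z, hz⟩ else a 0

theorem RF.hX_cls (h : RF η F X a f) {i : ℕ} {y : E} (hy : y ∈ (ob b₀ : Set E)) :
    h.hX (cls h.code i y) = f i y := by
  have hy' : y ∈ h.code.V i i := by
    have : h.code.V i i = ob b₀ := codeF_V i
    rw [this]
    exact hy
  have hz : cls h.code i y ∈ M h.code := cls_mem_M hy'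
  unfold RF.hX
  rw [dif_pos hz]
  exact toX_eq (mem_cls_self hy')

theorem RF.V_eq (h : RF η F X a f) (i : ℕ) : h.code.V i i = (ob b₀ : Set E) := codeF_V i

theorem RF.hX_inj (h : RF η F X a f) : InjOn h.hX (M h.code) := by
  intro z hz w hw hzw
  unfold RF.hX at hzw
  rw [dif_pos hz, dif_pos hw] at hzw
  exact congrArg Code.Pts.val (toX_inj hzw)

/-- From an embedding of the piece to a test chart. -/
theorem RF.tc_of_emb (h : RF η F X a f) {e : Pt E → Pt E} (he : Emb (d₀ E) [b₀] h.code e) :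
    TC (fun x => h.hX (e (cls (d₀ E) 0 x))) ∧
    ∀ x ∈ (cb b₀ : Set E), h.hX (e (cls (d₀ E) 0 x)) ∈ ⋃ i, f i '' ob b₀ := by
  obtain ⟨O, hO, hinj, hLD⟩ := he
  set U : Set E := {x | O ∈ nh (d₀ E) (cls (d₀ E) 0 x)} with hU
  have hUo : IsOpen U := by
    rw [isOpen_iff_eventually]
    intro x hx
    have hx' : ∀ᶠ z in nh (d₀ E) (cls (d₀ E) 0 x), z ∈ O := hx
    have h1 := nh_ev (cls_mem_M (d₀_mem x)) hx'
    rw [ev_nh (d₀_mem x)] at h1
    exact h1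
  have hUO : ∀ x ∈ U, cls (d₀ E) 0 x ∈ O := fun x hx =>
    nh_self (cls_mem_M (d₀_mem x)) (P := fun z => z ∈ O) hx
  have hloc : ∀ x ∈ U, ∃ i, ∃ y ∈ (ob b₀ : Set E), ∃ u : E → E, SN u x ∧ u x = y ∧
      ∀ᶠ x' in 𝓝 x, u x' ∈ (ob b₀ : Set E) ∧ h.hX (e (cls (d₀ E) 0 x')) = f i (u x') := by
    intro x hx
    have h1 := hLD _ (hUO x hx)
    obtain ⟨q', hq'⟩ := exists_mem h1.mem_tgt
    have h2 := h1.at (mem_cls_self (d₀_mem x)) hq'
    refine ⟨q'.1, _, ?_, rp e (d₀ E) 0 q'.1, h2.sn, rfl, ?_⟩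
    · have := h2.ev0.self_of_nhds.2
      rwa [h.V_eq] at this
    · filter_upwards [h2.ev0] with x' hx'
      have h3 := hx'.2
      rw [h.V_eq] at h3
      refine ⟨h3, ?_⟩
      rw [hx'.1, h.hX_cls h3]
  have hKU : (cb b₀ : Set E) ⊆ U := by
    intro x hx
    exact hO _ (by rw [d₀_K]; exact ⟨x, hx, rfl⟩)
  refine ⟨⟨U, hKU, OX_of_map hUo ?_ ?_⟩, ?_⟩
  · intro x hx y hy hxy
    have h1 := h.hX_inj (hLD _ (hUO x hx)).mem_tgt (hLD _ (hUO y hy)).mem_tgt hxy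
    have h2 := hinj (hUO x hx) (hUO y hy) h1
    exact cls_inj (d₀_mem x) (d₀_mem y) h2
  · intro x hx
    obtain ⟨i, y, hy, u, hu, hux, hev⟩ := hloc x hx
    have h1 : map (fun x => h.hX (e (cls (d₀ E) 0 x))) (𝓝 x) = map (f i ∘ u) (𝓝 x) := by
      refine Filter.map_congr ?_
      filter_upwards [hev] with x' hx'
      exact hx'.2
    rw [h1, ← Filter.map_map, hu.map_nhds, hux, (h.gc i).ox.map_nhds hy, hev.self_of_nhds.2, hux]
  · intro x hx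
    obtain ⟨i, y, hy, u, hu, hux, hev⟩ := hloc x (hKU hx)
    rw [hev.self_of_nhds.2]
    exact mem_iUnion.2 ⟨i, _, hev.self_of_nhds.1, rfl⟩

open Classical in
/-- The inverse map. -/
noncomputable def RF.hinv (h : RF η F X a f) (w : X) : Pt E :=
  if hw : ∃ z ∈ M h.code, h.hX z = w then hw.choose else ∅

theorem RF.hinv_eq (h : RF η F X a f) {i : ℕ} {y : E} (hy : y ∈ (ob b₀ : Set E)) :
    h.hinv (f i y) = cls h.code i y := by
  have hy' : y ∈ h.code.V i i := by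
    rw [h.V_eq]
    exact hy
  have hw : ∃ z ∈ M h.code, h.hX z = f i y := ⟨_, cls_mem_M hy', h.hX_cls hy⟩
  unfold RF.hinv
  rw [dif_pos hw]
  exact h.hX_inj hw.choose_spec.1 (cls_mem_M hy') (hw.choose_spec.2.trans (h.hX_cls hy).symm)

/-- The inverse of a chart. -/
noncomputable def ginv (f : ℕ → E → X) (i : ℕ) : X → E :=
  Function.invFunOn (f i) (ob b₀)

theorem RF.ginv_eq (h : RF η F X a f) {i : ℕ} {y : E} (hy : y ∈ (ob b₀ : Set E)) :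
    ginv f i (f i y) = y :=
  (h.gc i).ox.inj.leftInvOn_invFunOn hy

theorem RF.oe_ginv (h : RF η F X a f) {g : E → X} {U : Set E} (hg : OX g U) (i : ℕ) :
    EK.OE (ginv f i ∘ g) (U ∩ g ⁻¹' (f i '' ob b₀)) := by
  have hNo : IsOpen (U ∩ g ⁻¹' (f i '' ob b₀)) :=
    hg.cont.isOpen_inter_preimage hg.op (h.gc i).ox.isOpen_image
  have hval : ∀ x ∈ U ∩ g ⁻¹' (f i '' ob b₀), (ginv f i ∘ g) x ∈ (ob b₀ : Set E) ∧
      f i ((ginv f i ∘ g) x) = g x := by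
    rintro x ⟨_, y, hy, hyx⟩
    have : (ginv f i ∘ g) x = y := by
      show ginv f i (g x) = y
      rw [← hyx, h.ginv_eq hy]
    rw [this]
    exact ⟨hy, hyx⟩
  refine ⟨hNo, ?_, ?_, ?_⟩
  · rw [continuousOn_open_iff hNo]
    intro A hA
    have h1 := hg.cont.isOpen_inter_preimage hg.op
      ((h.gc i).img (ob b₀ ∩ A) inter_subset_left ((ob_open _).inter hA))
    convert h1 using 1
    ext x
    constructor
    · rintro ⟨hx, hxA⟩
      exact ⟨hx.1, _, ⟨(hval x hx).1, hxA⟩, (hval x hx).2⟩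
    · rintro ⟨hx, y, ⟨hy, hyA⟩, hyx⟩
      refine ⟨⟨hx, y, hy, hyx⟩, ?_⟩
      show ginv f i (g x) ∈ A
      rw [← hyx, h.ginv_eq hy]
      exact hyA
  · intro x hx y hy hxy
    refine hg.inj hx.1 hy.1 ?_
    rw [← (hval x hx).2, ← (hval y hy).2, hxy]
  · intro V hV hVo
    have h1 : IsOpen (g '' V) := hg.img V (hV.trans inter_subset_left) hVo
    have h2 := (h.gc i).ox.cont.isOpen_inter_preimage (ob_open _) h1
    convert h2 using 1
    ext y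
    constructor
    · rintro ⟨x, hx, rfl⟩
      refine ⟨(hval x (hV hx)).1, ?_⟩
      show f i ((ginv f i ∘ g) x) ∈ g '' V
      rw [(hval x (hV hx)).2]
      exact ⟨x, hx, rfl⟩
    · rintro ⟨hy, x, hx, hxy⟩
      refine ⟨x, hx, ?_⟩
      show ginv f i (g x) = y
      rw [hxy, h.ginv_eq hy]

/-- From a test chart to an embedding of the piece. -/
theorem RF.emb_of_tc (h : RF η F X a f) {g : E → X} {U : Set E} (hU : (cb b₀ : Set E) ⊆ U)
    (hg : OX g U) (him : ∀ x ∈ (cb b₀ : Set E), g x ∈ ⋃ i, f i '' ob b₀) :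
    Emb (d₀ E) [b₀] h.code (fun z => h.hinv (g (coord 0 z))) ∧
    ∀ (b' : ℕ × ℕ × ℕ) (i : ℕ) (b'' : ℕ × ℕ × ℕ), (ob b'' : Set E) ⊆ ob b₀ →
      (∀ x ∈ (cb b' : Set E), x ∈ U ∧ g x ∈ f i '' ob b'') →
      ∀ (c : Code E) (hE : Emb (d₀ E) [b₀] c (fun z => h.hinv (g (coord 0 z)))), c = h.code →
        (⟨c, _, hE⟩ : Y (d₀ E) [b₀]) ∈ SE (d₀ E) [b₀] 0 i b' (ob b'') := by
  set e : Pt E → Pt E := fun z => h.hinv (g (coord 0 z)) with he
  have hcoord : ∀ x : E, coord 0 (cls (d₀ E) 0 x) = x := fun x => coord_cls (d₀_mem x)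
  -- local representation
  have hLK : ∀ (i : ℕ) (x : E), x ∈ U → g x ∈ f i '' ob b₀ →
      LK (d₀ E) h.code e (0, x) i ∧ rp e (d₀ E) 0 i x = ginv f i (g x) := by
    intro i x hxU hxi
    have hOE := h.oe_ginv hg i
    have hxN : x ∈ U ∩ g ⁻¹' (f i '' ob b₀) := ⟨hxU, hxi⟩
    have hev : ∀ᶠ x' in 𝓝 x, e (cls (d₀ E) 0 x') = cls h.code i ((ginv f i ∘ g) x') := by
      filter_upwards [hOE.op.mem_nhds hxN] with x' hx'
      obtain ⟨y, hy, hyx⟩ := hx'.2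
      show h.hinv (g (coord 0 (cls (d₀ E) 0 x'))) = cls h.code i (ginv f i (g x'))
      rw [hcoord, ← hyx, h.hinv_eq hy, h.ginv_eq hy]
    have hmem : (ginv f i ∘ g) x ∈ h.code.V i i := by
      obtain ⟨y, hy, hyx⟩ := hxi
      show ginv f i (g x) ∈ _
      rw [← hyx, h.ginv_eq hy, h.V_eq]
      exact hy
    refine ⟨LK.of (q := (0, x)) (d₀_mem x) (ginv f i ∘ g) hmem hev ⟨_, hxN, hOE⟩, ?_⟩
    exact rp_eq hmem hev.self_of_nhds
  have hopen : IsOpen (U ∩ g ⁻¹' (⋃ i, f i '' ob b₀)) :=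
    hg.cont.isOpen_inter_preimage hg.op (isOpen_iUnion fun i => (h.gc i).ox.isOpen_image)
  refine ⟨⟨cls (d₀ E) 0 '' (U ∩ g ⁻¹' (⋃ i, f i '' ob b₀)), ?_, ?_, ?_⟩, ?_⟩
  · intro z hz
    rw [d₀_K] at hz
    obtain ⟨x, hx, rfl⟩ := hz
    show ∀ᶠ z in nh (d₀ E) (cls (d₀ E) 0 x), z ∈ cls (d₀ E) 0 '' (U ∩ g ⁻¹' (⋃ i, f i '' ob b₀))
    rw [ev_nh (d₀_mem x)]
    filter_upwards [hopen.mem_nhds ⟨hU hx, him x hx⟩] with x' hx'
    exact ⟨x', hx', rfl⟩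
  · rintro _ ⟨x, ⟨hxU, hx⟩, rfl⟩ _ ⟨y, ⟨hyU, hy⟩, rfl⟩ hxy
    obtain ⟨i, x', hx', hxx⟩ := mem_iUnion.1 hx
    obtain ⟨j, y', hy', hyy⟩ := mem_iUnion.1 hy
    have h1 : h.hinv (g (coord 0 (cls (d₀ E) 0 x))) = h.hinv (g (coord 0 (cls (d₀ E) 0 y))) := hxy
    rw [hcoord, hcoord, ← hxx, ← hyy, h.hinv_eq hx', h.hinv_eq hy'] at h1
    have h2 : f i x' = f j y' := by
      rw [← h.hX_cls hx', ← h.hX_cls hy', h1]
    rw [hg.inj hxU hyU (by rw [← hxx, ← hyy, h2])]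
  · rintro _ ⟨x, ⟨hxU, hx⟩, rfl⟩
    obtain ⟨i, hi⟩ := mem_iUnion.1 hx
    exact (hLK i x hxU hi).1.ld
  · rintro b' i b'' hb'' hb' c hE rfl
    have hsub : f i '' ob b'' ⊆ f i '' ob b₀ := image_mono hb''
    refine ⟨?_, ?_⟩
    · intro x hx
      obtain ⟨hxU, hxi⟩ := hb' x hx
      obtain ⟨h1, h2⟩ := hLK i x hxU (hsub hxi)
      refine ⟨d₀_mem x, h1.ev0, h1.sn, ?_⟩
      show rp e (d₀ E) 0 i x ∈ (ob b'' : Set E)
      rw [h2]
      obtain ⟨y, hy, hyx⟩ := hxi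
      rw [← hyx, h.ginv_eq (hb'' hy)]
      exact hy
    · intro x hx y hy hxy
      obtain ⟨hxU, hxi⟩ := hb' x hx
      obtain ⟨hyU, hyi⟩ := hb' y hy
      have h1 : ginv f i (g x) = ginv f i (g y) := by
        rw [← (hLK i x hxU (hsub hxi)).2, ← (hLK i y hyU (hsub hyi)).2]
        exact hxy
      obtain ⟨x', hx', hxx⟩ := hxi
      obtain ⟨y', hy', hyy⟩ := hyi
      rw [← hxx, ← hyy, h.ginv_eq (hb'' hx'), h.ginv_eq (hb'' hy')] at h1
      exact hg.inj hxU hyU (by rw [← hxx, ← hyy, h1])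

/-! ### The Borel condition -/

/-- Test conditions: the image of the ball with index `w.1` lies in a ball with center `a w.2.1`. -/
def Sat (a : ℕ → X) (g : E → X) (W : List ((ℕ × ℕ × ℕ) × ℕ × ℕ)) : Prop :=
  ∀ w ∈ W, ∀ x ∈ (cb w.1 ∩ cb b₀ : Set E), dist (g x) (a w.2.1) < 1 / ((w.2.2 : ℝ) + 1)

/-- The closed ball with index `b''` in the chart `i` is mapped to a ball. -/
def HIT (E : Type) [NormedAddCommGroup E] [NormedSpace ℝ E] [FiniteDimensional ℝ E]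
    (F : ℕ → ℕ → ℕ → ℝ) (i : ℕ) (b'' : ℕ × ℕ × ℕ) (m r : ℕ) : Prop :=
  ∃ N : ℕ, ∀ k, dn E k ∈ (ob b'' : Set E) → F i k m ≤ 1 / ((r : ℝ) + 1) - 1 / ((N : ℝ) + 1)

theorem RF.hit_iff (h : RF η F X a f) {i : ℕ} {b'' : ℕ × ℕ × ℕ} (hb : (cb b'' : Set E) ⊆ ob b₀)
    (m r : ℕ) : HIT E F i b'' m r ↔ ∀ y ∈ (cb b'' : Set E), dist (f i y) (a m) < 1 / ((r : ℝ) + 1) := by
  constructor
  · rintro ⟨N, hN⟩ y hy
    have hpos : (0 : ℝ) < 1 / ((N : ℝ) + 1) := by positivity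
    obtain ⟨k, hk1, _, hk3⟩ := (h.gc i).cont_near (hb.trans (ob_sub_cb _)) hy (half_pos hpos) one_pos
    have h1 := hN k hk1
    rw [h.mt i k (hb (ob_sub_cb _ hk1))] at h1
    have h2 := dist_triangle_left (f i y) (a m) (f i (dn E k))
    linarith
  · intro hy
    have hcont : ContinuousOn (fun y => dist (f i y) (a m)) (cb b'') :=
      continuous_dist.comp_continuousOn
        ((((h.gc i).cont.mono (hb.trans (ob_sub_cb _)))).prodMk continuousOn_const)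
    have hne : (cb b'' : Set E).Nonempty := ⟨_, Metric.mem_closedBall_self (by positivity)⟩
    obtain ⟨y, hy1, hmax⟩ := (cb_compact b'').exists_isMaxOn hne hcont
    obtain ⟨N, hN⟩ := exists_nat_one_div_lt (sub_pos.2 (hy y hy1))
    refine ⟨N, fun k hk => ?_⟩
    rw [h.mt i k (hb (ob_sub_cb _ hk))]
    have h1 : dist (f i (dn E k)) (a m) ≤ dist (f i y) (a m) := hmax (ob_sub_cb _ hk)
    linarith

/-- The Borel condition. -/
def BW (E : Type) [NormedAddCommGroup E] [NormedSpace ℝ E] [FiniteDimensional ℝ E]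
    (W : List ((ℕ × ℕ × ℕ) × ℕ × ℕ)) (ω : Dat) : Prop :=
  GF E ω.1 ω.2 ∧ ∃ L : List ((ℕ × ℕ × ℕ) × ℕ × (ℕ × ℕ × ℕ)), cdF E ω ∈ OL E L ∧
    ∀ w ∈ W, ∃ L' : List ((ℕ × ℕ × ℕ) × ℕ × (ℕ × ℕ × ℕ)), ((∀ q ∈ L', q ∈ L) ∧
      (∀ x ∈ (cb w.1 ∩ cb b₀ : Set E), ∃ q ∈ L', x ∈ (cb q.1 : Set E)) ∧
      ∀ q ∈ L', (cb q.2.2 : Set E) ⊆ ob b₀) ∧ ∀ q ∈ L', HIT E ω.2 q.2.1 q.2.2 w.2.1 w.2.2

theorem m_HIT (i : ℕ) (b'' : ℕ × ℕ × ℕ) (m r : ℕ) :
    Measurable (fun ω : Dat => HIT E ω.2 i b'' m r) :=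
  Measurable.exists fun N => Measurable.forall fun k => (m_const _).imp
    (m_le (m_F i k m) measurable_const)

theorem m_BW (W : List ((ℕ × ℕ × ℕ) × ℕ × ℕ)) : Measurable (BW E W) := by
  refine m_GF.and (Measurable.exists fun L => Measurable.and ?_ ?_)
  · exact measurableSet_setOfPred.1 (meas_cdF (open_meas (OL_open L)))
  · exact Measurable.forall fun w => (m_const _).imp (Measurable.exists fun L' =>
      (m_const _).and (Measurable.forall fun q => (m_const _).imp (m_HIT _ _ _ _)))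

theorem BW_iff (h : RF η F X a f) (W : List ((ℕ × ℕ × ℕ) × ℕ × ℕ)) :
    BW E W (η, F) ↔ ∃ g : E → X, TC g ∧ (∀ x ∈ (cb b₀ : Set E), g x ∈ ⋃ i, f i '' ob b₀) ∧
      Sat a g W := by
  constructor
  · rintro ⟨_, L, hL, hW⟩
    rw [h.cdF_eq] at hL
    obtain ⟨e, he, hSE⟩ := hL
    obtain ⟨h1, h2⟩ := h.tc_of_emb he
    refine ⟨_, h1, h2, ?_⟩
    intro w hw x hx
    obtain ⟨L', ⟨h3, h4, h5⟩, h6⟩ := hW w hw
    obtain ⟨q, hq, hxq⟩ := h4 x hx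
    obtain ⟨_, h7, _, h8⟩ := (hSE q (h3 q hq)).1 x hxq
    have h9 := h7.self_of_nhds
    have h10 : rp e (d₀ E) 0 q.2.1 x ∈ (ob b₀ : Set E) := by
      rw [← h.V_eq q.2.1]
      exact h9.2
    show dist (h.hX (e (cls (d₀ E) 0 x))) (a w.2.1) < _
    have h11 : e (cls (d₀ E) 0 x) = cls h.code q.2.1 (rp e (d₀ E) 0 q.2.1 x) := h9.1
    rw [h11, h.hX_cls h10]
    exact (h.hit_iff (h5 q hq) _ _).1 (h6 q hq) _ (ob_sub_cb _ h8)
  · rintro ⟨g, ⟨U, hU, hg⟩, him, hsat⟩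
    refine ⟨h.gf, ?_⟩
    have key : ∀ w ∈ W, ∃ L' : List ((ℕ × ℕ × ℕ) × ℕ × (ℕ × ℕ × ℕ)),
        (∀ x ∈ (cb w.1 ∩ cb b₀ : Set E), ∃ q ∈ L', x ∈ (cb q.1 : Set E)) ∧
        ∀ q ∈ L', (cb q.2.2 : Set E) ⊆ ob b₀ ∧ HIT E F q.2.1 q.2.2 w.2.1 w.2.2 ∧
          ∀ x ∈ (cb q.1 : Set E), x ∈ U ∧ g x ∈ f q.2.1 '' ob q.2.2 := by
      intro w hw
      have hcpt : IsCompact (cb w.1 ∩ cb b₀ : Set E) :=
        (cb_compact _).inter_right (cb_compact _).isClosed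
      refine hcpt.induction_on (p := fun S => ∃ L' : List ((ℕ × ℕ × ℕ) × ℕ × (ℕ × ℕ × ℕ)),
        (∀ x ∈ S, ∃ q ∈ L', x ∈ (cb q.1 : Set E)) ∧
        ∀ q ∈ L', (cb q.2.2 : Set E) ⊆ ob b₀ ∧ HIT E F q.2.1 q.2.2 w.2.1 w.2.2 ∧
          ∀ x ∈ (cb q.1 : Set E), x ∈ U ∧ g x ∈ f q.2.1 '' ob q.2.2) ?_ ?_ ?_ ?_
      · exact ⟨[], by simp, by simp⟩
      · rintro S S' hSS ⟨L', h1, h2⟩
        exact ⟨L', fun x hx => h1 x (hSS hx), h2⟩
      · rintro S S' ⟨L₁, h1, h2⟩ ⟨L₂, h3, h4⟩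
        refine ⟨L₁ ++ L₂, ?_, ?_⟩
        · rintro x (hx | hx)
          · obtain ⟨q, hq, hxq⟩ := h1 x hx
            exact ⟨q, List.mem_append.2 (Or.inl hq), hxq⟩
          · obtain ⟨q, hq, hxq⟩ := h3 x hx
            exact ⟨q, List.mem_append.2 (Or.inr hq), hxq⟩
        · intro q hq
          rcases List.mem_append.1 hq with h5 | h5
          · exact h2 q h5
          · exact h4 q h5
      · intro x hx
        obtain ⟨i, y, hy, hyx⟩ := mem_iUnion.1 (him x hx.2)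
        have hlt : dist (f i y) (a w.2.1) < 1 / ((w.2.2 : ℝ) + 1) := by
          rw [hyx]
          exact hsat w hw x hx
        have hev : ∀ᶠ y' in 𝓝 y, dist (f i y') (a w.2.1) < 1 / ((w.2.2 : ℝ) + 1) := by
          have hc : ContinuousAt (f i) y := (h.gc i).ox.cont.continuousAt ((ob_open _).mem_nhds hy)
          exact (hc.dist continuousAt_const).eventually (Iio_mem_nhds hlt)
        obtain ⟨b'', _, hb1, hb2⟩ := exists_rb 0 (inter_mem ((ob_open (E := E) b₀).mem_nhds hy) hev)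
        have hbo : (cb b'' : Set E) ⊆ ob b₀ := fun z hz => (hb2 hz).1
        have hopen : IsOpen (U ∩ g ⁻¹' (f i '' ob b'')) :=
          hg.cont.isOpen_inter_preimage hg.op
            ((h.gc i).img _ ((ob_sub_cb _).trans hbo) (ob_open _))
        obtain ⟨b', _, hc1, hc2⟩ := exists_rb 0 (hopen.mem_nhds ⟨hU hx.2, y, hb1, hyx⟩)
        refine ⟨ob b', mem_nhdsWithin_of_mem_nhds ((ob_open b').mem_nhds hc1),
          [(b', i, b'')], ?_, ?_⟩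
        · intro z hz
          exact ⟨_, List.mem_singleton.2 rfl, ob_sub_cb _ hz⟩
        · intro q hq
          rw [List.mem_singleton.1 hq]
          exact ⟨hbo, (h.hit_iff hbo _ _).2 fun z hz => (hb2 hz).2, fun z hz => hc2 hz⟩
    choose! Lw hLw1 hLw2 using key
    obtain ⟨hE, hSE⟩ := h.emb_of_tc hU hg him
    refine ⟨W.flatMap Lw, ?_, ?_⟩
    · rw [h.cdF_eq]
      refine ⟨_, hE, ?_⟩
      intro q hq
      obtain ⟨w, hw, hqw⟩ := List.mem_flatMap.1 hq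
      obtain ⟨h1, _, h3⟩ := hLw2 w hw q hqw
      exact hSE q.1 q.2.1 q.2.2 ((ob_sub_cb _).trans h1) h3 _ hE rfl
    · intro w hw
      refine ⟨Lw w, ⟨?_, hLw1 w hw, fun q hq => (hLw2 w hw q hq).1⟩,
        fun q hq => (hLw2 w hw q hq).2.1⟩
      intro q hq
      exact List.mem_flatMap.2 ⟨w, hw, hq⟩

end Pool.Agent.H655.MC
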