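import Pool.Agent.H655.MC.Sel

/-!
The Borel map from metric codes of manifolds to codes.
-/

open Set Filter Topology MeasureTheory

namespace Pool.Agent.H655.MC

open Pool.Agent.H655.CM

variable {E : Type} [NormedAddCommGroup E] [NormedSpace ℝ E] [FiniteDimensional ℝ E]
variable {X : Type} [MetricSpace X]

/-- Every point of a manifold is the center of a test chart. -/
theorem exists_TC_mfd [ChartedSpace E X] (x : X) : ∃ g : E → X, TC g ∧ g (ce E) = x := by
  set φ := chartAt E x with hφ
  have hx : x ∈ φ.source := mem_chart_source E x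
  obtain ⟨ε, hε, hεU⟩ := Metric.mem_nhds_iff.1 (φ.open_target.mem_nhds (φ.map_source hx))
  set t : ℝ := ε / 2 with ht
  have ht0 : 0 < t := half_pos hε
  have hmaps : ∀ z ∈ Metric.ball (ce E) 2, φ x + t • (z - ce E) ∈ φ.target := by
    intro z hz
    apply hεU
    rw [Metric.mem_ball, dist_eq_norm] at hz ⊢
    have : φ x + t • (z - ce E) - φ x = t • (z - ce E) := by abel
    rw [this, norm_smul, Real.norm_of_nonneg ht0.le]
    calc t * ‖z - ce E‖ < t * 2 := mul_lt_mul_of_pos_left hz ht0
      _ = ε := by rw [ht]; ring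
  refine ⟨fun z => φ.symm (φ x + t • (z - ce E)),
    ⟨Metric.ball (ce E) 2, ?_, ⟨Metric.isOpen_ball, ?_, ?_, ?_⟩⟩, ?_⟩
  · rw [cb_b₀]
    exact Metric.closedBall_subset_ball (by norm_num)
  · refine φ.continuousOn_symm.comp (t := φ.target) ?_ hmaps
    fun_prop
  · intro z hz w hw hzw
    have h1 := φ.symm.injOn (hmaps z hz) (hmaps w hw) hzw
    have h2 : t • (z - ce E) = t • (w - ce E) := add_left_cancel h1
    have h3 := smul_right_injective E ht0.ne' h2
    exact sub_left_injective h3
  · intro V hV hVo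
    have h1 : IsOpen ((fun z => φ x + t • (z - ce E)) '' V) := by
      have h2 : (fun z => φ x + t • (z - ce E)) '' V =
          (fun w => ce E + t⁻¹ • (w - φ x)) ⁻¹' V := by
        ext w
        constructor
        · rintro ⟨z, hz, rfl⟩
          show ce E + t⁻¹ • (φ x + t • (z - ce E) - φ x) ∈ V
          have : ce E + t⁻¹ • (φ x + t • (z - ce E) - φ x) = z := by
            rw [add_sub_cancel_left, smul_smul, inv_mul_cancel₀ ht0.ne', one_smul]
            abel
          rw [this]
          exact hz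
        · intro hw
          refine ⟨ce E + t⁻¹ • (w - φ x), hw, ?_⟩
          show φ x + t • (ce E + t⁻¹ • (w - φ x) - ce E) = w
          rw [add_sub_cancel_left, smul_smul, mul_inv_cancel₀ ht0.ne', one_smul]
          abel
      rw [h2]
      exact hVo.preimage (by fun_prop)
    have h3 := φ.symm.isOpen_image_of_subset_source h1
      (by rintro _ ⟨z, hz, rfl⟩; exact hmaps z (hV hz))
    rwa [image_image] at h3
  · simp [φ.left_inv hx]

/-- A manifold is covered by a sequence of charts. -/
theorem exists_cover [ChartedSpace E X] {a : ℕ → X} {η : ℕ → ℕ → ℝ} (hr : Rz η X a) :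
    ∃ f : ℕ → E → X, (∀ i, GC (f i)) ∧ (⋃ i, f i '' (ob b₀ : Set E)) = univ := by
  have hceb : ce E ∈ (ob b₀ : Set E) := by
    rw [ob_b₀]
    exact Metric.mem_ball_self one_pos
  have : TopologicalSpace.SeparableSpace X := ⟨⟨range a, countable_range a, hr.dense⟩⟩
  have : SecondCountableTopology X := UniformSpace.secondCountable_of_separable X
  choose g hg hgx using fun x : X => exists_TC_mfd (E := E) x
  have hN : ∀ x, g x '' (ob b₀ : Set E) ∈ 𝓝 x := by
    intro x
    refine ((hg x).gc.img _ Subset.rfl (ob_open _)).mem_nhds ?_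
    exact ⟨_, hceb, hgx x⟩
  obtain ⟨s, hs, hsu⟩ := TopologicalSpace.countable_cover_nhds hN
  have hsne : s.Nonempty := by
    rw [nonempty_iff_ne_empty]
    rintro rfl
    have h1 : a 0 ∈ (univ : Set X) := mem_univ _
    rw [← hsu] at h1
    simp at h1
  obtain ⟨u, hu⟩ := hs.exists_eq_range hsne
  refine ⟨fun i => g (u i), fun i => (hg _).gc, ?_⟩
  rw [← univ_subset_iff, ← hsu]
  intro x hx
  obtain ⟨y, hy, hxy⟩ := mem_iUnion₂.1 hx
  rw [hu] at hy
  obtain ⟨i, rfl⟩ := hy
  exact mem_iUnion.2 ⟨i, hxy⟩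

open Classical in
/-- The starting conditions. -/
noncomputable def stt (B : Wt → Set Et) (i : ℕ) (η : Et) : Wt := if η ∈ B (dec i) then dec i else []

/-- The distances of the selected charts. -/
noncomputable def FS (E : Type) [NormedAddCommGroup E] [NormedSpace ℝ E] [FiniteDimensional ℝ E]
    (B : Wt → Set Et) (η : Et) (i k m : ℕ) : ℝ := FF E B (stt B i η) η k m

theorem m_FS {B : Wt → Set Et} (hB : ∀ W, MeasurableSet (B W)) :
    Measurable (fun η : Et => (η, FS E B η)) := by
  refine measurable_id.prodMk ?_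
  refine measurable_pi_iff.2 fun i => measurable_pi_iff.2 fun k => measurable_pi_iff.2 fun m => ?_
  intro S hS
  have hst : FB (stt B i) := by
    classical
    exact FB.ite (measurableSet_setOfPred.1 (hB _)) (FB.const _) (FB.const _)
  have h1 : Measurable (fun η : Et => FF E B (stt B i η) η k m ∈ S) :=
    hst.bind (Q := fun W η => FF E B W η k m ∈ S) fun W =>
      measurableSet_setOfPred.1 ((m_FF hB W k m) hS)
  exact measurableSet_setOfPred.2 h1

/-- The Borel map from metric codes of complete manifolds to codes. -/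
theorem exists_code (E : Type) [NormedAddCommGroup E] [NormedSpace ℝ E] [FiniteDimensional ℝ E] :
    ∃ Φ : Et → Code E, Measurable Φ ∧ ∀ (X : Type) [MetricSpace X] [CompleteSpace X]
      [ChartedSpace E X] (a : ℕ → X) (η : Et), Rz η X a → Nonempty (X ≃ₜ (Φ η).Pts) := by
  obtain ⟨B, hBm, hB⟩ := exists_BS E
  refine ⟨fun η => cdF E (η, FS E B η), meas_cdF.comp (m_FS hBm), ?_⟩
  intro X _ _ _ a η hr
  have : LocallyConnectedSpace X := ChartedSpace.locallyConnectedSpace E X
  obtain ⟨f₀, hf₀, hcov₀⟩ := exists_cover (E := E) hr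
  have hBη := hB X a η f₀ hr hf₀ hcov₀
  have hst : ∀ i, η ∈ B (stt B i η) := by
    intro i
    unfold stt
    split_ifs with h
    · exact h
    · obtain ⟨g, hg, _⟩ := exists_TC_mfd (E := E) (a 0)
      exact (hBη []).2 ⟨g, hg, fun w hw => by simp at hw⟩
  have hlim := fun i => exists_lim hr hBη (hst i)
  choose f hgc hcs hmt using hlim
  have hRF : RF η (FS E B η) X a f := ⟨hr, hgc, hmt⟩
  have hcov : (⋃ i, f i '' (ob b₀ : Set E)) = univ := by
    rw [eq_univ_iff_forall]
    intro x
    obtain ⟨g, hg, hgx⟩ := exists_TC_mfd (E := E) x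
    obtain ⟨W, hW, hc⟩ := cover_lemma hr hg
    obtain ⟨i, rfl⟩ := dec_surj W
    have h1 : η ∈ B (dec i) := (hBη _).2 ⟨g, hg, hW⟩
    have h2 : stt B i η = dec i := by
      unfold stt
      rw [if_pos h1]
    have h3 := hc (f i) (hgc i) (h2 ▸ hcs i)
    rw [hgx] at h3
    exact mem_iUnion.2 ⟨i, h3⟩
  show Nonempty (X ≃ₜ (cdF E (η, FS E B η)).Pts)
  rw [hRF.cdF_eq]
  exact ⟨((codeF_homeo (hf := fun i => (hgc i).ox)).trans
    ((Homeomorph.setCongr hcov).trans (Homeomorph.Set.univ X))).symm⟩

end Pool.Agent.H655.MC
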