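import Pool.Agent.H655.MC.Sep

/-!
Limits of charts, and the covering property.
-/

open Set Filter Topology

namespace Pool.Agent.H655.MC

open Pool.Agent.H655.CM

variable {E : Type} [NormedAddCommGroup E] [NormedSpace ℝ E] [FiniteDimensional ℝ E]
variable {X : Type} [MetricSpace X] {a : ℕ → X} {η : ℕ → ℕ → ℝ}

theorem TC.gc {g : E → X} (h : TC g) : GC g := by
  obtain ⟨U, hU, hg⟩ := h
  exact ⟨hg.cont.mono hU, hg.inj.mono hU,
    fun V hV hVo => hg.img V ((hV.trans (ob_sub_cb _)).trans hU) hVo⟩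

/-- The basic connectedness argument. -/
theorem conn_arg {g : E → X} {B C : Set E} {N : Set X} (hB : IsOpen (g '' B))
    (hC : IsClosed (g '' C)) (hN : IsPreconnected N) (hBN : (N ∩ g '' B).Nonempty) (hBC : B ⊆ C)
    (hS : ∀ y ∈ C, y ∉ B → g y ∉ N) : N ⊆ g '' B := by
  have h1 : N ⊆ g '' B ∪ (g '' C)ᶜ := by
    intro y hy
    by_cases h : y ∈ g '' C
    · obtain ⟨z, hz, rfl⟩ := h
      by_cases hzB : z ∈ B
      · exact Or.inl ⟨z, hzB, rfl⟩
      · exact absurd hy (hS z hz hzB)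
    · exact Or.inr h
  have h2 : N ∩ (g '' B ∩ (g '' C)ᶜ) = ∅ := by
    rw [eq_empty_iff_forall_notMem]
    rintro y ⟨_, h3, h4⟩
    exact h4 (image_mono hBC h3)
  rcases isPreconnected_iff_subset_of_disjoint.1 hN _ _ hB hC.isOpen_compl h1 h2 with h | h
  · exact h
  · obtain ⟨y, hy, hyB⟩ := hBN
    exact absurd (image_mono hBC hyB) (h hy)

/-- Injective uniform limits of charts are open. -/
theorem open_limit [LocallyConnectedSpace X] {g : ℕ → E → X} {f : E → X} (hg : ∀ n, GC (g n))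
    (hu : ∀ ε > 0, ∀ᶠ n in atTop, ∀ x ∈ (cb b₀ : Set E), dist (g n x) (f x) < ε)
    (hc : ContinuousOn f (cb b₀)) (hi : InjOn f (cb b₀)) : ∀ U ⊆ (ob b₀ : Set E), IsOpen U →
    IsOpen (f '' U) := by
  have : ProperSpace E := FiniteDimensional.proper_real E
  intro U hU hUo
  rw [isOpen_iff_mem_nhds]
  rintro _ ⟨x, hx, rfl⟩
  obtain ⟨ε, hε, hεU⟩ := Metric.nhds_basis_closedBall.mem_iff.1 (hUo.mem_nhds hx)
  have hbU : Metric.closedBall x ε ⊆ (ob b₀ : Set E) := hεU.trans hU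
  have hbc : Metric.closedBall x ε ⊆ (cb b₀ : Set E) := hbU.trans (ob_sub_cb _)
  have hScl : IsClosed (f '' Metric.sphere x ε) :=
    ((isCompact_sphere x ε).image_of_continuousOn
      (hc.mono (Metric.sphere_subset_closedBall.trans hbc))).isClosed
  have hxS : f x ∉ f '' Metric.sphere x ε := by
    rintro ⟨y, hy, hyx⟩
    have h1 := hi (hbc (Metric.sphere_subset_closedBall hy)) (ob_sub_cb _ (hU hx)) hyx
    rw [h1, Metric.mem_sphere, dist_self] at hy
    exact hε.ne hy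
  obtain ⟨ρ, hρ, hρS⟩ := Metric.mem_nhds_iff.1 (hScl.isOpen_compl.mem_nhds hxS)
  have hdist : ∀ y ∈ Metric.sphere x ε, ρ ≤ dist (f y) (f x) := by
    intro y hy
    by_contra h
    exact hρS (not_le.1 h) ⟨y, hy, rfl⟩
  set N : Set X := connectedComponentIn (Metric.ball (f x) (ρ / 2)) (f x) with hN
  have hxb : f x ∈ Metric.ball (f x) (ρ / 2) := Metric.mem_ball_self (half_pos hρ)
  have hNo : IsOpen N := Metric.isOpen_ball.connectedComponentIn
  have hNx : f x ∈ N := mem_connectedComponentIn hxb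
  have hNb : N ⊆ Metric.ball (f x) (ρ / 2) := connectedComponentIn_subset _ _
  obtain ⟨δ, hδ, hδN⟩ := Metric.mem_nhds_iff.1 (hNo.mem_nhds hNx)
  have hev : ∀ᶠ n in atTop, N ⊆ g n '' Metric.ball x ε := by
    filter_upwards [hu (ρ / 4) (by positivity), hu δ hδ] with n h1 h2
    refine conn_arg (C := Metric.closedBall x ε) ?_ ?_ isPreconnected_connectedComponentIn ?_
      Metric.ball_subset_closedBall ?_
    · exact (hg n).img _ (Metric.ball_subset_closedBall.trans hbU) Metric.isOpen_ball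
    · exact ((isCompact_closedBall x ε).image_of_continuousOn ((hg n).cont.mono hbc)).isClosed
    · exact ⟨g n x, hδN (h2 x (ob_sub_cb _ (hU hx))), x, Metric.mem_ball_self hε, rfl⟩
    · intro y hy hyB hyN
      have hyS : y ∈ Metric.sphere x ε := by
        rw [Metric.mem_sphere]
        rw [Metric.mem_closedBall] at hy
        rw [Metric.mem_ball, not_lt] at hyB
        exact le_antisymm hy hyB
      have h3 := hdist y hyS
      have h4 := h1 y (hbc hy)
      have h5 : dist (g n y) (f x) < ρ / 2 := hNb hyN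
      have h6 := dist_triangle_left (f y) (f x) (g n y)
      linarith
  have hNf : N ⊆ f '' Metric.closedBall x ε := by
    intro y hy
    have hcl : IsClosed (f '' Metric.closedBall x ε) :=
      ((isCompact_closedBall x ε).image_of_continuousOn (hc.mono hbc)).isClosed
    rw [← hcl.closure_eq, Metric.mem_closure_iff]
    intro δ' hδ'
    obtain ⟨n, h1, h2⟩ := (hev.and (hu δ' hδ')).exists
    obtain ⟨z, hz, rfl⟩ := h1 hy
    exact ⟨f z, ⟨z, Metric.ball_subset_closedBall hz, rfl⟩, h2 z (hbc (Metric.ball_subset_closedBall hz))⟩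
  exact mem_of_superset (hNo.mem_nhds hNx) (hNf.trans (image_mono hεU))

/-- The closed conditions. -/
def CSat (a : ℕ → X) (f : E → X) (W : List ((ℕ × ℕ × ℕ) × ℕ × ℕ)) : Prop :=
  ∀ w ∈ W, ∀ x ∈ (cb w.1 ∩ cb b₀ : Set E), dist (f x) (a w.2.1) ≤ 1 / ((w.2.2 : ℝ) + 1)

/-- The center of the basic ball. -/
noncomputable abbrev ce (E : Type) [NormedAddCommGroup E] [NormedSpace ℝ E]
    [FiniteDimensional ℝ E] : E := dn E 0

theorem ob_b₀ : (ob b₀ : Set E) = Metric.ball (ce E) 1 := by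
  show Metric.ball (dn E 0) (1 / (((0 : ℕ) : ℝ) + 1)) = _
  norm_num

theorem cb_b₀ : (cb b₀ : Set E) = Metric.closedBall (ce E) 1 := by
  show Metric.closedBall (dn E 0) (1 / (((0 : ℕ) : ℝ) + 1)) = _
  norm_num

/-- Every point in a chart is the center of a test chart. -/
theorem exists_TC {f : E → X} (hf : GC f) {y : E} (hy : y ∈ (ob b₀ : Set E)) :
    ∃ g : E → X, TC g ∧ g (ce E) = f y := by
  obtain ⟨ε, hε, hεU⟩ := Metric.mem_nhds_iff.1 ((ob_open (E := E) b₀).mem_nhds hy)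
  set t : ℝ := ε / 2 with ht
  have ht0 : 0 < t := half_pos hε
  have hmaps : ∀ z ∈ Metric.ball (ce E) 2, y + t • (z - ce E) ∈ (ob b₀ : Set E) := by
    intro z hz
    apply hεU
    rw [Metric.mem_ball, dist_eq_norm] at hz ⊢
    have : y + t • (z - ce E) - y = t • (z - ce E) := by abel
    rw [this, norm_smul, Real.norm_of_nonneg ht0.le]
    calc t * ‖z - ce E‖ < t * 2 := by
          exact mul_lt_mul_of_pos_left hz ht0
      _ = ε := by rw [ht]; ring
  refine ⟨fun z => f (y + t • (z - ce E)), ⟨Metric.ball (ce E) 2, ?_, ⟨Metric.isOpen_ball, ?_, ?_, ?_⟩⟩, ?_⟩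
  · rw [cb_b₀]
    exact Metric.closedBall_subset_ball (by norm_num)
  · refine hf.ox.cont.comp (t := ob b₀) ?_ hmaps
    fun_prop
  · intro z hz w hw hzw
    have h1 := hf.ox.inj (hmaps z hz) (hmaps w hw) hzw
    have h2 : t • (z - ce E) = t • (w - ce E) := add_left_cancel h1
    have h3 := smul_right_injective E ht0.ne' h2
    exact sub_left_injective h3
  · intro V hV hVo
    have h1 : IsOpen ((fun z => y + t • (z - ce E)) '' V) := by
      have h2 : (fun z => y + t • (z - ce E)) '' V =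
          (fun w => ce E + t⁻¹ • (w - y)) ⁻¹' V := by
        ext w
        constructor
        · rintro ⟨z, hz, rfl⟩
          show ce E + t⁻¹ • (y + t • (z - ce E) - y) ∈ V
          have : ce E + t⁻¹ • (y + t • (z - ce E) - y) = z := by
            rw [add_sub_cancel_left, smul_smul, inv_mul_cancel₀ ht0.ne', one_smul]
            abel
          rw [this]
          exact hz
        · intro hw
          refine ⟨ce E + t⁻¹ • (w - y), hw, ?_⟩
          show y + t • (ce E + t⁻¹ • (w - y) - ce E) = w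
          rw [add_sub_cancel_left, smul_smul, mul_inv_cancel₀ ht0.ne', one_smul]
          abel
      rw [h2]
      exact hVo.preimage (by fun_prop)
    have h3 := hf.img _ (by rintro _ ⟨z, hz, rfl⟩; exact hmaps z (hV hz)) h1
    rwa [image_image] at h3
  · simp

/-- The covering lemma. -/
theorem cover_lemma (hr : Rz η X a) {g : E → X} (hg : TC g) :
    ∃ W : List ((ℕ × ℕ × ℕ) × ℕ × ℕ), Sat a g W ∧
      ∀ f : E → X, GC f → CSat a f W → g (ce E) ∈ f '' ob b₀ := by
  have : ProperSpace E := FiniteDimensional.proper_real E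
  obtain ⟨U, hU, hgU⟩ := id hg
  have hgc := hg.gc
  have hb2 : Metric.closedBall (ce E) (1 / 2) ⊆ (ob b₀ : Set E) := by
    rw [ob_b₀]
    exact Metric.closedBall_subset_ball (by norm_num)
  have hb4 : Metric.closedBall (ce E) (1 / 4) ⊆ (ob b₀ : Set E) := by
    rw [ob_b₀]
    exact Metric.closedBall_subset_ball (by norm_num)
  set N : Set X := g '' Metric.ball (ce E) (1 / 4) with hN
  have hNo : IsOpen N := hgc.img _ (Metric.ball_subset_closedBall.trans hb4) Metric.isOpen_ball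
  have hNc : IsPreconnected N :=
    (convex_ball (ce E) (1 / 4)).isPreconnected.image _
      (hgc.ox.cont.mono (Metric.ball_subset_closedBall.trans hb4))
  have hQ : IsClosed (g '' Metric.closedBall (ce E) (1 / 4)) :=
    ((isCompact_closedBall _ _).image_of_continuousOn (hgc.ox.cont.mono hb4)).isClosed
  -- the conditions on the sphere
  have hS : ∃ W : List ((ℕ × ℕ × ℕ) × ℕ × ℕ), Sat a g W ∧
      (∀ x ∈ Metric.sphere (ce E) (1 / 2), ∃ w ∈ W, x ∈ (cb w.1 : Set E)) ∧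
      ∀ w ∈ W, Disjoint (Metric.closedBall (a w.2.1) (1 / ((w.2.2 : ℝ) + 1))) N := by
    refine (isCompact_sphere (ce E) (1 / 2)).induction_on
      (p := fun S => ∃ W : List ((ℕ × ℕ × ℕ) × ℕ × ℕ), Sat a g W ∧
      (∀ x ∈ S, ∃ w ∈ W, x ∈ (cb w.1 : Set E)) ∧
      ∀ w ∈ W, Disjoint (Metric.closedBall (a w.2.1) (1 / ((w.2.2 : ℝ) + 1))) N) ?_ ?_ ?_ ?_
    · exact ⟨[], fun w hw => by simp at hw, by simp, by simp⟩
    · rintro S S' hSS ⟨W, h1, h2, h3⟩
      exact ⟨W, h1, fun x hx => h2 x (hSS hx), h3⟩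
    · rintro S S' ⟨W, h1, h2, h3⟩ ⟨W', h1', h2', h3'⟩
      refine ⟨W ++ W', ?_, ?_, ?_⟩
      · intro w hw
        rcases List.mem_append.1 hw with h | h
        · exact h1 w h
        · exact h1' w h
      · rintro x (hx | hx)
        · obtain ⟨w, hw, hxw⟩ := h2 x hx
          exact ⟨w, List.mem_append.2 (Or.inl hw), hxw⟩
        · obtain ⟨w, hw, hxw⟩ := h2' x hx
          exact ⟨w, List.mem_append.2 (Or.inr hw), hxw⟩
      · intro w hw
        rcases List.mem_append.1 hw with h | h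
        · exact h3 w h
        · exact h3' w h
    · intro x hx
      have hxb : x ∈ (ob b₀ : Set E) := hb2 (Metric.sphere_subset_closedBall hx)
      have hxQ : g x ∉ g '' Metric.closedBall (ce E) (1 / 4) := by
        rintro ⟨y, hy, hyx⟩
        have h1 := hgc.ox.inj (hb4 hy) hxb hyx
        rw [h1, Metric.mem_closedBall, Metric.mem_sphere.1 hx] at hy
        norm_num at hy
      obtain ⟨m, r, h1, h2⟩ := hr.basis (hQ.isOpen_compl.mem_nhds hxQ)
      have hev : ∀ᶠ x' in 𝓝 x, g x' ∈ Metric.ball (a m) (1 / ((r : ℝ) + 1)) :=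
        (hgc.ox.cont.continuousAt ((ob_open _).mem_nhds hxb)) (Metric.isOpen_ball.mem_nhds h1)
      obtain ⟨b', _, hb1, hb3⟩ := exists_rb 0 hev
      refine ⟨ob b', mem_nhdsWithin_of_mem_nhds ((ob_open b').mem_nhds hb1), [(b', m, r)],
        ?_, ?_, ?_⟩
      · intro w hw x' hx'
        rw [List.mem_singleton.1 hw] at hx' ⊢
        exact hb3 hx'.1
      · intro y hy
        exact ⟨_, List.mem_singleton.2 rfl, ob_sub_cb _ hy⟩
      · intro w hw
        rw [List.mem_singleton.1 hw, Set.disjoint_left]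
        intro y hy hyN
        exact h2 hy (image_mono Metric.ball_subset_closedBall hyN)
  obtain ⟨W, hW1, hW2, hW3⟩ := hS
  have hceb : ce E ∈ (ob b₀ : Set E) := by
    rw [ob_b₀]
    exact Metric.mem_ball_self one_pos
  have hceN : g (ce E) ∈ N := ⟨ce E, Metric.mem_ball_self (by norm_num), rfl⟩
  obtain ⟨m, r, h1, h2⟩ := hr.basis (hNo.mem_nhds hceN)
  have hev : ∀ᶠ x' in 𝓝 (ce E), g x' ∈ Metric.ball (a m) (1 / ((r : ℝ) + 1)) :=
    (hgc.ox.cont.continuousAt ((ob_open _).mem_nhds hceb)) (Metric.isOpen_ball.mem_nhds h1)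
  obtain ⟨b', _, hb1, hb3⟩ := exists_rb 0 hev
  refine ⟨(b', m, r) :: W, ?_, ?_⟩
  · intro w hw
    rcases List.mem_cons.1 hw with rfl | h
    · intro x hx
      exact hb3 hx.1
    · exact hW1 w h
  · intro f hf hfW
    have h3 : f (ce E) ∈ N := h2 (hfW (b', m, r) List.mem_cons_self (ce E)
      ⟨ob_sub_cb _ hb1, ob_sub_cb _ hceb⟩)
    have h4 : N ⊆ f '' Metric.ball (ce E) (1 / 2) := by
      refine conn_arg (C := Metric.closedBall (ce E) (1 / 2)) ?_ ?_ hNc ?_
        Metric.ball_subset_closedBall ?_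
      · exact hf.img _ (Metric.ball_subset_closedBall.trans hb2) Metric.isOpen_ball
      · exact ((isCompact_closedBall _ _).image_of_continuousOn (hf.ox.cont.mono hb2)).isClosed
      · exact ⟨_, h3, ce E, Metric.mem_ball_self (by norm_num), rfl⟩
      · intro y hy hyB hyN
        have hyS : y ∈ Metric.sphere (ce E) (1 / 2) := by
          rw [Metric.mem_sphere]
          rw [Metric.mem_closedBall] at hy
          rw [Metric.mem_ball, not_lt] at hyB
          exact le_antisymm hy hyB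
        obtain ⟨w, hw, hyw⟩ := hW2 y hyS
        have h5 := hfW w (List.mem_cons_of_mem _ hw) y ⟨hyw, ob_sub_cb _ (hb2 hy)⟩
        exact Set.disjoint_left.1 (hW3 w hw) h5 hyN
    obtain ⟨y, hy, hyx⟩ := h4 hceN
    exact ⟨y, hb2 (Metric.ball_subset_closedBall hy), hyx⟩

theorem exists_rb' (n : ℕ) {x : E} {U : Set E} (hU : U ∈ 𝓝 x) :
    ∃ b : ℕ × ℕ × ℕ, n ≤ b.2.2 ∧ x ∈ (ob b : Set E) ∧ (cb b : Set E) ⊆ U := by
  obtain ⟨ε, hε, hεU⟩ := Metric.mem_nhds_iff.1 hU
  obtain ⟨m, hm⟩ := exists_nat_one_div_lt (half_pos hε)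
  set k := max m n with hk
  have hpos : (0 : ℝ) < 1 / ((k : ℝ) + 1) := by positivity
  obtain ⟨c, hc⟩ := (TopologicalSpace.denseRange_denseSeq E).exists_dist_lt x hpos
  have hkm : 1 / ((k : ℝ) + 1) ≤ 1 / ((m : ℝ) + 1) := Nat.one_div_le_one_div (le_max_left _ _)
  refine ⟨(0, c, k), le_max_right _ _, ?_, ?_⟩
  · show dist x _ < _
    exact hc
  · intro y hy
    apply hεU
    have hy' : dist y (TopologicalSpace.denseSeq E c) ≤ 1 / ((k : ℝ) + 1) := hy
    have := dist_triangle y (TopologicalSpace.denseSeq E c) x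
    have h3 : dist (TopologicalSpace.denseSeq E c) x = dist x (TopologicalSpace.denseSeq E c) :=
      dist_comm _ _
    rw [Metric.mem_ball]
    linarith

/-- Fine families of conditions. -/
def fine (E : Type) [NormedAddCommGroup E] [NormedSpace ℝ E] [FiniteDimensional ℝ E]
    (η : ℕ → ℕ → ℝ) (n : ℕ) (V : List ((ℕ × ℕ × ℕ) × ℕ × ℕ)) : Prop :=
  (∀ x ∈ (cb b₀ : Set E), ∃ w ∈ V, x ∈ (cb w.1 : Set E)) ∧ (∀ w ∈ V, n ≤ w.2.2) ∧
    ∀ w ∈ V, ∀ w' ∈ V, (∃ x ∈ (cb w.1 ∩ cb b₀ : Set E), ∃ y ∈ (cb w'.1 ∩ cb b₀ : Set E),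
      1 / ((n : ℝ) + 1) ≤ dist x y) →
      1 / ((w.2.2 : ℝ) + 1) + 1 / ((w'.2.2 : ℝ) + 1) < η w.2.1 w'.2.1

theorem exists_fine (hr : Rz η X a) {g : E → X} (hg : TC g) (n : ℕ) :
    ∃ V : List ((ℕ × ℕ × ℕ) × ℕ × ℕ), fine E η n V ∧ Sat a g V := by
  obtain ⟨U, hU, hgU⟩ := id hg
  have hgc := hg.gc
  have hcl : IsClosed {p : E × E | 1 / ((n : ℝ) + 1) ≤ dist p.1 p.2} :=
    isClosed_le continuous_const continuous_dist
  have hS : IsCompact ((cb b₀ ×ˢ cb b₀ : Set (E × E)) ∩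
      {p : E × E | 1 / ((n : ℝ) + 1) ≤ dist p.1 p.2}) :=
    ((cb_compact _).prod (cb_compact _)).inter_right hcl
  have hcont : ContinuousOn (fun p : E × E => dist (g p.1) (g p.2))
      ((cb b₀ ×ˢ cb b₀ : Set (E × E)) ∩ {p : E × E | 1 / ((n : ℝ) + 1) ≤ dist p.1 p.2}) := by
    refine continuous_dist.comp_continuousOn (ContinuousOn.prodMk ?_ ?_)
    · exact hgc.cont.comp continuous_fst.continuousOn fun p hp => hp.1.1
    · exact hgc.cont.comp continuous_snd.continuousOn fun p hp => hp.1.2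
  have hex : ∃ δ > 0, ∀ p ∈ ((cb b₀ ×ˢ cb b₀ : Set (E × E)) ∩
      {p : E × E | 1 / ((n : ℝ) + 1) ≤ dist p.1 p.2}), δ ≤ dist (g p.1) (g p.2) := by
    rcases ((cb b₀ ×ˢ cb b₀ : Set (E × E)) ∩
      {p : E × E | 1 / ((n : ℝ) + 1) ≤ dist p.1 p.2}).eq_empty_or_nonempty with he | hne
    · exact ⟨1, one_pos, fun p hp => by rw [he] at hp; exact hp.elim⟩
    · obtain ⟨p, hp, hmin⟩ := hS.exists_isMinOn hne hcont
      refine ⟨dist (g p.1) (g p.2), ?_, fun q hq => hmin hq⟩
      rw [gt_iff_lt, dist_pos]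
      intro he
      have h2 := hgc.inj hp.1.1 hp.1.2 he
      have h3 : 1 / ((n : ℝ) + 1) ≤ dist p.1 p.2 := hp.2
      rw [h2, dist_self] at h3
      have : (0 : ℝ) < 1 / ((n : ℝ) + 1) := by positivity
      linarith
  obtain ⟨δ, hδ, hex⟩ := hex
  obtain ⟨R₀, hR₀⟩ := exists_nat_one_div_lt (show (0 : ℝ) < δ / 4 by positivity)
  set R := max R₀ n with hR
  have hRR : 1 / ((R : ℝ) + 1) < δ / 4 :=
    (Nat.one_div_le_one_div (le_max_left _ _)).trans_lt hR₀
  have key : ∃ V : List ((ℕ × ℕ × ℕ) × ℕ × ℕ), (∀ x ∈ (cb b₀ : Set E), ∃ w ∈ V, x ∈ (cb w.1 : Set E)) ∧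
      (∀ w ∈ V, w.2.2 = R) ∧ Sat a g V := by
    refine (cb_compact (E := E) b₀).induction_on (p := fun S => ∃ V : List ((ℕ × ℕ × ℕ) × ℕ × ℕ),
      (∀ x ∈ S, ∃ w ∈ V, x ∈ (cb w.1 : Set E)) ∧ (∀ w ∈ V, w.2.2 = R) ∧ Sat a g V) ?_ ?_ ?_ ?_
    · exact ⟨[], by simp, by simp, fun w hw => by simp at hw⟩
    · rintro S S' hSS ⟨V, h1, h2, h3⟩
      exact ⟨V, fun x hx => h1 x (hSS hx), h2, h3⟩
    · rintro S S' ⟨W, h2, h3, h1⟩ ⟨W', h2', h3', h1'⟩
      refine ⟨W ++ W', ?_, ?_, ?_⟩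
      · rintro x (hx | hx)
        · obtain ⟨w, hw, hxw⟩ := h2 x hx
          exact ⟨w, List.mem_append.2 (Or.inl hw), hxw⟩
        · obtain ⟨w, hw, hxw⟩ := h2' x hx
          exact ⟨w, List.mem_append.2 (Or.inr hw), hxw⟩
      · intro w hw
        rcases List.mem_append.1 hw with h | h
        · exact h3 w h
        · exact h3' w h
      · intro w hw
        rcases List.mem_append.1 hw with h | h
        · exact h1 w h
        · exact h1' w h
    · intro x hx
      obtain ⟨m, hm⟩ := hr.near (g x) (ε := 1 / ((R : ℝ) + 1)) (by positivity)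
      have hev : ∀ᶠ x' in 𝓝 x, g x' ∈ Metric.ball (a m) (1 / ((R : ℝ) + 1)) :=
        (hgU.cont.continuousAt (hgU.op.mem_nhds (hU hx))) (Metric.isOpen_ball.mem_nhds hm)
      obtain ⟨b', _, hb1, hb2⟩ := exists_rb 0 hev
      refine ⟨ob b', mem_nhdsWithin_of_mem_nhds ((ob_open b').mem_nhds hb1), [(b', m, R)],
        ?_, ?_, ?_⟩
      · intro y hy
        exact ⟨_, List.mem_singleton.2 rfl, ob_sub_cb _ hy⟩
      · intro w hw
        rw [List.mem_singleton.1 hw]
      · intro w hw x' hx'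
        rw [List.mem_singleton.1 hw] at hx' ⊢
        exact hb2 hx'.1
  obtain ⟨V, h1, h2, h3⟩ := key
  refine ⟨V, ⟨h1, fun w hw => by rw [h2 w hw]; exact le_max_right _ _, ?_⟩, h3⟩
  rintro w hw w' hw' ⟨x, hx, y, hy, hxy⟩
  have h4 := hex (x, y) ⟨⟨hx.2, hy.2⟩, hxy⟩
  have h5 := h3 w hw x hx
  have h6 := h3 w' hw' y hy
  rw [h2 w hw] at h5 ⊢
  rw [h2 w' hw'] at h6 ⊢
  rw [← hr.dst]
  have h7 := dist_triangle4 (g x) (a w.2.1) (a w'.2.1) (g y)
  rw [dist_comm (a w'.2.1) (g y)] at h7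
  have h8 : δ ≤ dist (g x) (g y) := h4
  linarith

end Pool.Agent.H655.MC
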