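import Pool.Agent.H655.MC.Real
import Pool.Agent.H655.CM.Coding

/-!
The code of the manifold covered by a sequence of charts, as a Borel function of the metric code and
of the distances which code the charts.
-/

open Set Filter Topology
open scoped MeasureTheory

namespace Pool.Agent.H655.MC

open Pool.Agent.H655.CM

variable {E : Type} [NormedAddCommGroup E] [NormedSpace ℝ E] [FiniteDimensional ℝ E]
variable {X : Type} [MetricSpace X] {a : ℕ → X} {η : ℕ → ℕ → ℝ} {F : ℕ → ℕ → ℕ → ℝ}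
  {f : ℕ → E → X}

/-- Pseudometrics on the natural numbers. -/
structure PM (η : ℕ → ℕ → ℝ) : Prop where
  self : ∀ i, η i i = 0
  symm : ∀ i j, η i j = η j i
  tri : ∀ i j k, η i k ≤ η i j + η j k

theorem Rz.pm (h : Rz η X a) : PM η where
  self i := by rw [← h.dst, dist_self]
  symm i j := by rw [← h.dst, ← h.dst, dist_comm]
  tri i j k := by
    rw [← h.dst, ← h.dst, ← h.dst]
    exact dist_triangle _ _ _

/-- A copy of the natural numbers. -/
structure WN : Type where
  n : ℕ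

/-- Every pseudometric is realized. -/
theorem PM.exists_Rz (h : PM η) : ∃ (X : Type) (_ : MetricSpace X) (_ : CompleteSpace X)
    (a : ℕ → X), Rz η X a := by
  letI : PseudoMetricSpace WN :=
    { dist := fun i j => η i.n j.n
      dist_self := fun i => h.self i.n
      dist_comm := fun i j => h.symm i.n j.n
      dist_triangle := fun i j k => h.tri i.n j.n k.n }
  refine ⟨UniformSpace.Completion WN, inferInstance, inferInstance,
    fun n : ℕ => ((⟨n⟩ : WN) : UniformSpace.Completion WN), ⟨?_, ?_⟩⟩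
  · have h1 : DenseRange ((↑) : WN → UniformSpace.Completion WN) :=
      UniformSpace.Completion.denseRange_coe
    have h2 : Function.Surjective (fun n : ℕ => (⟨n⟩ : WN)) := fun w => ⟨w.n, rfl⟩
    intro x
    have h3 := h1 x
    rwa [← h2.range_comp] at h3
  · intro i j
    exact UniformSpace.Completion.dist_eq (α := WN) ⟨i⟩ ⟨j⟩

/-- The realized families of charts. -/
structure RF (η : ℕ → ℕ → ℝ) (F : ℕ → ℕ → ℕ → ℝ) (X : Type) [MetricSpace X] (a : ℕ → X)
    (f : ℕ → E → X) : Prop where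
  rz : Rz η X a
  gc : ∀ i, GC (f i)
  mt : ∀ i, Mt a (f i) (F i)

/-- The explicit conditions for families. -/
def GF (E : Type) [NormedAddCommGroup E] [NormedSpace ℝ E] [FiniteDimensional ℝ E]
    (η : ℕ → ℕ → ℝ) (F : ℕ → ℕ → ℕ → ℝ) : Prop := PM η ∧ ∀ i, Gd E η (F i)

theorem RF.gf (h : RF η F X a f) : GF E η F :=
  ⟨h.rz.pm, fun i => (h.gc i).gd h.rz (h.mt i)⟩

theorem GF.exists_f [CompleteSpace X] (h : GF E η F) (hr : Rz η X a) :
    ∃ f : ℕ → E → X, RF η F X a f := by
  have h1 : ∀ i, ∃ f : E → X, GC f ∧ Mt a f (F i) := fun i => (h.2 i).exists_chart hr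
  choose f hf using h1
  exact ⟨f, hr, fun i => (hf i).1, fun i => (hf i).2⟩

/-- The image of a point under a chart lies in the image of a closed ball under another chart. -/
def NB (E : Type) [NormedAddCommGroup E] [NormedSpace ℝ E] [FiniteDimensional ℝ E]
    (F : ℕ → ℕ → ℕ → ℝ) (i : ℕ) (x : E) (j : ℕ) (b' : ℕ × ℕ × ℕ) : Prop :=
  ∀ N : ℕ, ∃ k l : ℕ, dist (dn E k) x < 1 / ((N : ℝ) + 1) ∧ dn E k ∈ (ob b₀ : Set E) ∧
    dn E l ∈ (ob b' : Set E) ∧ ∀ m, |F i k m - F j l m| ≤ 1 / ((N : ℝ) + 1)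

theorem RF.nb (h : RF η F X a f) {i : ℕ} {x : E} (hx : x ∈ (cb b₀ : Set E)) {j : ℕ}
    {b' : ℕ × ℕ × ℕ} (hb : (cb b' : Set E) ⊆ ob b₀) : f i x ∈ f j '' cb b' ↔ NB E F i x j b' := by
  constructor
  · rintro ⟨y, hy, hyx⟩ N
    have hpos : (0 : ℝ) < 1 / ((N : ℝ) + 1) / 2 := by positivity
    obtain ⟨k, hk1, hk2, hk3⟩ := (h.gc i).cont_near Subset.rfl hx hpos
      (δ := 1 / ((N : ℝ) + 1)) (by positivity)
    obtain ⟨l, hl1, _, hl3⟩ := (h.gc j).cont_near (hb.trans (ob_sub_cb _)) hy hpos one_pos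
    refine ⟨k, l, hk2, hk1, hl1, fun m => ?_⟩
    rw [h.mt i k hk1, h.mt j l (hb (ob_sub_cb _ hl1))]
    refine (abs_dist_le _ _ m).trans ?_
    have h1 := dist_triangle_right (f i (dn E k)) (f j (dn E l)) (f i x)
    rw [← hyx] at h1 hk3
    linarith
  · intro hN
    have hcpt : IsCompact (f j '' cb b') :=
      (cb_compact b').image_of_continuousOn ((h.gc j).cont.mono (hb.trans (ob_sub_cb _)))
    rw [← hcpt.isClosed.closure_eq, Metric.mem_closure_iff]
    intro ε hε
    obtain ⟨δ, hδ, h1⟩ := Metric.continuousOn_iff.1 (h.gc i).cont x hx (ε / 2) (half_pos hε)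
    obtain ⟨N, hN2⟩ := exists_nat_one_div_lt (lt_min hδ (half_pos hε))
    obtain ⟨k, l, h3, h4, h5, h6⟩ := hN N
    refine ⟨f j (dn E l), ⟨_, ob_sub_cb _ h5, rfl⟩, ?_⟩
    have h7 := h1 _ (ob_sub_cb _ h4) (h3.trans (hN2.trans_le (min_le_left _ _)))
    have h8 : dist (f i (dn E k)) (f j (dn E l)) ≤ 1 / ((N : ℝ) + 1) := by
      refine h.rz.dist_le fun m => ?_
      rw [← h.mt i k h4, ← h.mt j l (hb (ob_sub_cb _ h5))]
      exact h6 m
    have h9 := dist_triangle_left (f i x) (f j (dn E l)) (f i (dn E k))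
    have h10 : 1 / ((N : ℝ) + 1) < ε / 2 := hN2.trans_le (min_le_right _ _)
    linarith

/-- The code of the realized family. -/
noncomputable def RF.code (h : RF η F X a f) : Code E :=
  codeF (fun _ => ob b₀) f (fun i => (h.gc i).ox)

theorem RF.mem_V (h : RF η F X a f) (i j : ℕ) (x : E) : x ∈ h.code.V i j ↔
    x ∈ (ob b₀ : Set E) ∧ ∃ b' : ℕ × ℕ × ℕ, (cb b' : Set E) ⊆ ob b₀ ∧ NB E F i x j b' := by
  constructor
  · rintro ⟨hx, y, hy, hyx⟩
    obtain ⟨b', _, hb1, hb2⟩ := exists_rb 0 ((ob_open (E := E) b₀).mem_nhds hy)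
    exact ⟨hx, b', hb2, (h.nb (ob_sub_cb _ hx) hb2).1 ⟨y, ob_sub_cb _ hb1, hyx⟩⟩
  · rintro ⟨hx, b', hb, hN⟩
    obtain ⟨y, hy, hyx⟩ := (h.nb (ob_sub_cb _ hx) hb).2 hN
    exact ⟨hx, y, hb hy, hyx⟩

theorem RF.phi_mem (h : RF η F X a f) (i j : ℕ) (x : E) (hx : x ∈ h.code.V i j) {O : Set E}
    (hO : IsOpen O) : h.code.φ i j x ∈ O ↔
    ∃ b' : ℕ × ℕ × ℕ, (cb b' : Set E) ⊆ O ∩ ob b₀ ∧ NB E F i x j b' := by
  have hs := fφ_spec (U := fun _ => (ob b₀ : Set E)) (f := f) hx
  have hx0 : x ∈ (cb b₀ : Set E) := ob_sub_cb _ hx.1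
  constructor
  · intro hφ
    have hmem : h.code.φ i j x ∈ O ∩ ob b₀ := ⟨hφ, hs.1⟩
    obtain ⟨b', _, hb1, hb2⟩ := exists_rb 0 ((hO.inter (ob_open (E := E) b₀)).mem_nhds hmem)
    exact ⟨b', hb2, (h.nb hx0 (hb2.trans inter_subset_right)).1
      ⟨_, ob_sub_cb _ hb1, hs.2⟩⟩
  · rintro ⟨b', hb, hN⟩
    obtain ⟨y, hy, hyx⟩ := (h.nb hx0 (hb.trans inter_subset_right)).2 hN
    have h1 : h.code.φ i j x = y :=
      (h.gc j).inj (ob_sub_cb _ hs.1) (ob_sub_cb _ (hb hy).2) (hs.2.trans hyx.symm)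
    rw [h1]
    exact (hb hy).1

omit [FiniteDimensional ℝ E] in
theorem Code.ext' {c c' : Code E} (h1 : ∀ i j, c.V i j = c'.V i j)
    (h2 : ∀ i j, ∀ x ∈ c.V i j, c.φ i j x = c'.φ i j x) : c = c' := by
  have hV : c.V = c'.V := funext fun i => funext fun j => h1 i j
  have hφ : c.φ = c'.φ := by
    funext i j x
    by_cases hx : x ∈ c.V i j
    · exact h2 i j x hx
    · rw [c.off i j x hx, c'.off i j x (by rw [← h1]; exact hx)]
  cases c
  cases c'
  cases hV
  cases hφ
  rfl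

theorem RF.code_eq {X' : Type} [MetricSpace X'] {a' : ℕ → X'} {f' : ℕ → E → X'}
    (h : RF η F X a f) (h' : RF η F X' a' f') : h.code = h'.code := by
  have hV : ∀ i j, h.code.V i j = h'.code.V i j := by
    intro i j
    ext x
    rw [h.mem_V, h'.mem_V]
  refine Code.ext' hV ?_
  intro i j x hx
  have hx' : x ∈ h'.code.V i j := by rw [← hV]; exact hx
  by_contra hne
  obtain ⟨A, B, hA, hB, hxA, hyB, hAB⟩ := t2_separation hne
  have h1 := (h'.phi_mem i j x hx' hA).2 ((h.phi_mem i j x hx hA).1 hxA)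
  exact Set.disjoint_left.1 hAB h1 hyB

open Classical in
/-- The code as a function of the data. -/
noncomputable def cdF (E : Type) [NormedAddCommGroup E] [NormedSpace ℝ E] [FiniteDimensional ℝ E]
    (p : (ℕ → ℕ → ℝ) × (ℕ → ℕ → ℕ → ℝ)) : Code E :=
  if h : ∃ c : Code E, ∃ (X : Type) (_ : MetricSpace X) (a : ℕ → X) (f : ℕ → E → X)
    (hf : RF p.1 p.2 X a f), hf.code = c then h.choose else emptyCode E

theorem RF.cdF_eq (h : RF η F X a f) : cdF E (η, F) = h.code := by
  have hex : ∃ c : Code E, ∃ (X : Type) (_ : MetricSpace X) (a : ℕ → X) (f : ℕ → E → X)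
    (hf : RF (η, F).1 (η, F).2 X a f), hf.code = c := ⟨h.code, X, _, a, f, h, rfl⟩
  unfold cdF
  rw [dif_pos hex]
  obtain ⟨X', _, a', f', h', he⟩ := hex.choose_spec
  rw [← he]
  exact h'.code_eq h

/-! ### Measurability -/

/-- The space of data. -/
abbrev Dat : Type := (ℕ → ℕ → ℝ) × (ℕ → ℕ → ℕ → ℝ)

theorem m_lt {Ω : Type} [MeasurableSpace Ω] {u v : Ω → ℝ} (hu : Measurable u) (hv : Measurable v) :
    Measurable (fun ω => u ω < v ω) := measurableSet_setOfPred.1 (measurableSet_lt hu hv)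

theorem m_le {Ω : Type} [MeasurableSpace Ω] {u v : Ω → ℝ} (hu : Measurable u) (hv : Measurable v) :
    Measurable (fun ω => u ω ≤ v ω) := measurableSet_setOfPred.1 (measurableSet_le hu hv)

theorem m_eq {Ω : Type} [MeasurableSpace Ω] {u v : Ω → ℝ} (hu : Measurable u) (hv : Measurable v) :
    Measurable (fun ω => u ω = v ω) := measurableSet_setOfPred.1 (measurableSet_eq_fun hu hv)

theorem m_eta (i j : ℕ) : Measurable (fun ω : Dat => ω.1 i j) :=
  (measurable_pi_apply j).comp ((measurable_pi_apply i).comp measurable_fst)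

theorem m_F (i j k : ℕ) : Measurable (fun ω : Dat => ω.2 i j k) :=
  (measurable_pi_apply k).comp ((measurable_pi_apply j).comp
    ((measurable_pi_apply i).comp measurable_snd))

theorem m_const {Ω : Type} [MeasurableSpace Ω] (p : Prop) : Measurable (fun _ : Ω => p) :=
  measurable_const

theorem m_NB (i : ℕ) (x : E) (j : ℕ) (b' : ℕ × ℕ × ℕ) :
    Measurable (fun ω : Dat => NB E ω.2 i x j b') := by
  unfold NB
  refine Measurable.forall fun N => Measurable.exists fun k => Measurable.exists fun l =>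
    (m_const _).and ((m_const _).and ((m_const _).and (Measurable.forall fun m => ?_)))
  exact m_le ((m_F i k m).sub (m_F j l m)).abs measurable_const

theorem m_Gd (i : ℕ) : Measurable (fun ω : Dat => Gd E ω.1 (ω.2 i)) := by
  have h : (fun ω : Dat => Gd E ω.1 (ω.2 i)) = fun ω : Dat =>
      (∀ k, dn E k ∈ (ob b₀ : Set E) → ∀ m m', |ω.2 i k m - ω.2 i k m'| ≤ ω.1 m m' ∧
        ω.1 m m' ≤ ω.2 i k m + ω.2 i k m') ∧
      (∀ k, dn E k ∈ (ob b₀ : Set E) → ∀ N : ℕ, ∃ m, ω.2 i k m < 1 / ((N : ℝ) + 1)) ∧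
      (∀ N : ℕ, ∃ M : ℕ, ∀ k l, dn E k ∈ (ob b₀ : Set E) → dn E l ∈ (ob b₀ : Set E) →
        dist (dn E k) (dn E l) < 1 / ((M : ℝ) + 1) → ∀ m, |ω.2 i k m - ω.2 i l m| ≤ 1 / ((N : ℝ) + 1)) ∧
      (∀ N : ℕ, ∃ M : ℕ, ∀ k l, dn E k ∈ (ob b₀ : Set E) → dn E l ∈ (ob b₀ : Set E) →
        1 / ((N : ℝ) + 1) ≤ dist (dn E k) (dn E l) →
          ∃ m, 1 / ((M : ℝ) + 1) ≤ |ω.2 i k m - ω.2 i l m|) ∧
      (∀ b' : ℕ × ℕ × ℕ, (cb b' : Set E) ⊆ ob b₀ → ∃ M : ℕ, ∀ m,
        (∃ k, dn E k ∈ (ob b' : Set E) ∧ ω.2 i k m < 1 / ((M : ℝ) + 1)) →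
        ∀ N : ℕ, ∃ l, dn E l ∈ (ob b₀ : Set E) ∧ ω.2 i l m < 1 / ((N : ℝ) + 1)) := by
    funext ω
    exact propext ⟨fun h => ⟨h.pt, h.nr, h.uc, h.ui, h.uo⟩,
      fun h => ⟨h.1, h.2.1, h.2.2.1, h.2.2.2.1, h.2.2.2.2⟩⟩
  rw [h]
  refine Measurable.and ?_ (Measurable.and ?_ (Measurable.and ?_ (Measurable.and ?_ ?_)))
  · refine Measurable.forall fun k => (m_const _).imp (Measurable.forall fun m =>
      Measurable.forall fun m' => Measurable.and ?_ ?_)
    · exact m_le ((m_F i k m).sub (m_F i k m')).abs (m_eta m m')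
    · exact m_le (m_eta m m') ((m_F i k m).add (m_F i k m'))
  · exact Measurable.forall fun k => (m_const _).imp (Measurable.forall fun N =>
      Measurable.exists fun m => m_lt (m_F i k m) measurable_const)
  · exact Measurable.forall fun N => Measurable.exists fun M => Measurable.forall fun k =>
      Measurable.forall fun l => (m_const _).imp ((m_const _).imp ((m_const _).imp
      (Measurable.forall fun m => m_le ((m_F i k m).sub (m_F i l m)).abs measurable_const)))
  · exact Measurable.forall fun N => Measurable.exists fun M => Measurable.forall fun k =>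
      Measurable.forall fun l => (m_const _).imp ((m_const _).imp ((m_const _).imp
      (Measurable.exists fun m => m_le measurable_const ((m_F i k m).sub (m_F i l m)).abs)))
  · exact Measurable.forall fun b' => (m_const _).imp (Measurable.exists fun M =>
      Measurable.forall fun m => (Measurable.exists fun k => (m_const _).and
        (m_lt (m_F i k m) measurable_const)).imp (Measurable.forall fun N => Measurable.exists fun l =>
        (m_const _).and (m_lt (m_F i l m) measurable_const)))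

theorem m_PM : Measurable (fun ω : Dat => PM ω.1) := by
  have h : (fun ω : Dat => PM ω.1) = fun ω : Dat => (∀ i, ω.1 i i = 0) ∧
      (∀ i j, ω.1 i j = ω.1 j i) ∧ ∀ i j k, ω.1 i k ≤ ω.1 i j + ω.1 j k := by
    funext ω
    exact propext ⟨fun h => ⟨h.self, h.symm, h.tri⟩, fun h => ⟨h.1, h.2.1, h.2.2⟩⟩
  rw [h]
  refine Measurable.and ?_ (Measurable.and ?_ ?_)
  · exact Measurable.forall fun i => m_eq (m_eta i i) measurable_const
  · exact Measurable.forall fun i => Measurable.forall fun j => m_eq (m_eta i j) (m_eta j i)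
  · exact Measurable.forall fun i => Measurable.forall fun j => Measurable.forall fun k =>
      m_le (m_eta i k) ((m_eta i j).add (m_eta j k))

theorem m_GF : Measurable (fun ω : Dat => GF E ω.1 ω.2) :=
  m_PM.and (Measurable.forall fun i => m_Gd i)

theorem GF.exists_RF (h : GF E η F) : ∃ (X : Type) (_ : MetricSpace X) (_ : CompleteSpace X)
    (a : ℕ → X) (f : ℕ → E → X), RF η F X a f := by
  obtain ⟨X, i1, i2, a, hr⟩ := h.1.exists_Rz
  obtain ⟨f, hf⟩ := h.exists_f hr
  exact ⟨X, i1, i2, a, f, hf⟩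

theorem cdF_off {ω : Dat} (h : ¬ GF E ω.1 ω.2) : cdF E ω = emptyCode E := by
  unfold cdF
  rw [dif_neg]
  rintro ⟨c, X, _, a, f, hf, _⟩
  exact h hf.gf

/-- The rational balls form a basis. -/
theorem ob_basis : TopologicalSpace.IsTopologicalBasis (range (fun b : ℕ × ℕ × ℕ => (ob b : Set E))) := by
  refine TopologicalSpace.isTopologicalBasis_of_isOpen_of_nhds ?_ ?_
  · rintro _ ⟨b, rfl⟩
    exact ob_open b
  · intro x U hx hU
    obtain ⟨b, _, h1, h2⟩ := exists_rb 0 (hU.mem_nhds hx)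
    exact ⟨_, ⟨b, rfl⟩, h1, (ob_sub_cb b).trans h2⟩

theorem meas_on {Ω : Type} [MeasurableSpace Ω] {p q r : Ω → Prop} (hp : Measurable p)
    (hq : Measurable q) (h1 : ∀ ω, p ω → (r ω ↔ q ω)) (P : Prop) (h2 : ∀ ω, ¬ p ω → (r ω ↔ P)) :
    Measurable r := by
  have : r = fun ω => (p ω ∧ q ω) ∨ (¬ p ω ∧ P) := by
    funext ω
    by_cases h : p ω
    · simp [h, h1 ω h]
    · simp [h, h2 ω h]
  rw [this]
  exact (hp.and hq).or (hp.not.and (m_const _))

/-- The code is a Borel function of the data. -/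
theorem meas_cdF : Measurable (cdF E) := by
  refine measurable_generateFrom ?_
  rintro A (⟨i, j, S, hS, rfl⟩ | ⟨i, j, x, B, hB, rfl⟩)
  · refine measurableSet_setOfPred.2 ?_
    rcases S.eq_empty_or_nonempty with rfl | hne
    · have : (fun ω : Dat => cdF E ω ∈ {c : Code E | ∅ ⊆ c.V i j}) = fun _ => True := by
        funext ω
        simp
      exact this ▸ m_const _
    · have hne' : Nonempty S := hne.to_subtype
      set s : ℕ → E := fun n => (TopologicalSpace.denseSeq S n : E) with hs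
      have hsS : ∀ n, s n ∈ S := fun n => (TopologicalSpace.denseSeq S n).2
      have hsd : S ⊆ closure (range s) := by
        intro x hx
        rw [Metric.mem_closure_iff]
        intro ε hε
        obtain ⟨n, hn⟩ := (TopologicalSpace.denseRange_denseSeq S).exists_dist_lt ⟨x, hx⟩ hε
        exact ⟨s n, ⟨n, rfl⟩, hn⟩
      refine meas_on (p := fun ω : Dat => GF E ω.1 ω.2)
        (q := fun ω => S ⊆ (ob b₀ : Set E) ∧ ∃ T : Finset (ℕ × ℕ × ℕ),
          (∀ b' ∈ T, (cb b' : Set E) ⊆ ob b₀) ∧ ∀ n, ∃ b' ∈ T, NB E ω.2 i (s n) j b')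
        m_GF ?_ ?_ False ?_
      · refine (m_const _).and (Measurable.exists fun T => (m_const _).and
          (Measurable.forall fun n => Measurable.exists fun b' => (m_const _).and (m_NB _ _ _ _)))
      · rintro ⟨η, F⟩ hω
        obtain ⟨X, _, _, a, f, hf⟩ := hω.exists_RF
        show S ⊆ (cdF E (η, F)).V i j ↔ _
        rw [hf.cdF_eq]
        constructor
        · intro hSV
          have hS0 : S ⊆ (ob b₀ : Set E) := fun y hy => (hSV hy).1
          refine ⟨hS0, ?_⟩
          have hcpt : IsCompact (f i '' S) :=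
            hS.image_of_continuousOn ((hf.gc i).cont.mono (hS0.trans (ob_sub_cb _)))
          obtain ⟨T, hT⟩ := hcpt.elim_finite_subcover
            (fun b' : {b' : ℕ × ℕ × ℕ // (cb b' : Set E) ⊆ ob b₀} => f j '' ob b'.1)
            (fun b' => (hf.gc j).img _ ((ob_sub_cb _).trans b'.2) (ob_open _)) (by
              rintro _ ⟨y, hy, rfl⟩
              obtain ⟨_, z, hz, hzy⟩ := hSV hy
              obtain ⟨b', _, hb1, hb2⟩ := exists_rb 0 ((ob_open (E := E) b₀).mem_nhds hz)
              exact mem_iUnion.2 ⟨⟨b', hb2⟩, z, hb1, hzy⟩)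
          refine ⟨T.image Subtype.val, ?_, ?_⟩
          · intro b' hb'
            obtain ⟨b'', _, rfl⟩ := Finset.mem_image.1 hb'
            exact b''.2
          · intro n
            obtain ⟨b', hb'⟩ := mem_iUnion.1 (hT ⟨s n, hsS n, rfl⟩)
            obtain ⟨hb'T, y, hy, hyn⟩ := mem_iUnion.1 hb'
            exact ⟨b'.1, Finset.mem_image.2 ⟨b', hb'T, rfl⟩,
              (hf.nb (ob_sub_cb _ (hS0 (hsS n))) b'.2).1 ⟨y, ob_sub_cb _ hy, hyn⟩⟩
        · rintro ⟨hS0, T, hT, hN⟩ x hx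
          have hQ : IsCompact (⋃ b' ∈ T, f j '' (cb b' : Set E)) :=
            T.finite_toSet.isCompact_biUnion fun b' hb' => (cb_compact b').image_of_continuousOn
              ((hf.gc j).cont.mono ((hT b' hb').trans (ob_sub_cb _)))
          have hmaps : ∀ y ∈ range s, f i y ∈ ⋃ b' ∈ T, f j '' (cb b' : Set E) := by
            rintro _ ⟨n, rfl⟩
            obtain ⟨b', hb', h1⟩ := hN n
            exact mem_iUnion₂.2 ⟨b', hb',
              (hf.nb (ob_sub_cb _ (hS0 (hsS n))) (hT b' hb')).2 h1⟩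
          have hxi : f i x ∈ ⋃ b' ∈ T, f j '' (cb b' : Set E) := by
            have hc : ContinuousWithinAt (f i) (range s) x :=
              ((hf.gc i).cont x (ob_sub_cb _ (hS0 hx))).mono (by
                rintro _ ⟨n, rfl⟩
                exact ob_sub_cb _ (hS0 (hsS n)))
            have := hc.mem_closure (hsd hx) (t := ⋃ b' ∈ T, f j '' (cb b' : Set E)) hmaps
            rwa [hQ.isClosed.closure_eq] at this
          obtain ⟨b', hb', y, hy, hyx⟩ := mem_iUnion₂.1 hxi
          exact ⟨hS0 hx, y, hT b' hb' hy, hyx⟩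
      · intro ω hω
        show S ⊆ (cdF E ω).V i j ↔ False
        rw [cdF_off hω, iff_false]
        intro h
        obtain ⟨x, hx⟩ := hne
        exact h hx
  · have hgen : borel E = MeasurableSpace.generateFrom (range (fun b : ℕ × ℕ × ℕ => (ob b : Set E))) :=
      ob_basis.borel_eq_generateFrom
    have key : Measurable[_, MeasurableSpace.generateFrom (range (fun b : ℕ × ℕ × ℕ => (ob b : Set E)))]
        (fun ω : Dat => (cdF E ω).φ i j x) := by
      refine measurable_generateFrom ?_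
      rintro _ ⟨b, rfl⟩
      refine measurableSet_setOfPred.2 ?_
      refine meas_on (p := fun ω : Dat => GF E ω.1 ω.2)
        (q := fun ω => ((x ∈ (ob b₀ : Set E) ∧ ∃ b' : ℕ × ℕ × ℕ, (cb b' : Set E) ⊆ ob b₀ ∧
            NB E ω.2 i x j b') ∧
            ∃ b' : ℕ × ℕ × ℕ, (cb b' : Set E) ⊆ ob b ∩ ob b₀ ∧ NB E ω.2 i x j b') ∨
          (¬ (x ∈ (ob b₀ : Set E) ∧ ∃ b' : ℕ × ℕ × ℕ, (cb b' : Set E) ⊆ ob b₀ ∧
            NB E ω.2 i x j b') ∧ (0 : E) ∈ (ob b : Set E)))
        m_GF ?_ ?_ ((0 : E) ∈ (ob b : Set E)) ?_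
      · have h1 : Measurable (fun ω : Dat => x ∈ (ob b₀ : Set E) ∧ ∃ b' : ℕ × ℕ × ℕ,
            (cb b' : Set E) ⊆ ob b₀ ∧ NB E ω.2 i x j b') :=
          (m_const _).and (Measurable.exists fun b' => (m_const _).and (m_NB _ _ _ _))
        exact (h1.and (Measurable.exists fun b' => (m_const _).and (m_NB _ _ _ _))).or
          (h1.not.and (m_const _))
      · rintro ⟨η, F⟩ hω
        obtain ⟨X, _, _, a, f, hf⟩ := hω.exists_RF
        show (cdF E (η, F)).φ i j x ∈ (ob b : Set E) ↔ _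
        rw [hf.cdF_eq]
        by_cases hx : x ∈ hf.code.V i j
        · rw [hf.phi_mem i j x hx (ob_open b)]
          rw [hf.mem_V] at hx
          simp [hx]
        · rw [hf.code.off i j x hx]
          rw [hf.mem_V] at hx
          simp only [hx, false_and, false_or, not_false_iff, true_and]
      · intro ω hω
        show (cdF E ω).φ i j x ∈ (ob b : Set E) ↔ _
        rw [cdF_off hω]
        exact Iff.rfl
    rw [← hgen] at key
    exact key hB

end Pool.Agent.H655.MC
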