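import Pool.Agent.H655.MC.Atlas

/-!
Metric codes of complete separable spaces, and the coding of charts by distances.
-/

open Set Filter Topology

namespace Pool.Agent.H655.MC

open Pool.Agent.H655.CM

/-- The complete space `X` with the dense sequence `a` realizes the metric code `η`. -/
structure Rz (η : ℕ → ℕ → ℝ) (X : Type) [MetricSpace X] (a : ℕ → X) : Prop where
  dense : DenseRange a
  dst : ∀ i j, dist (a i) (a j) = η i j

variable {X : Type} [MetricSpace X] {a : ℕ → X} {η : ℕ → ℕ → ℝ}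

theorem Rz.near (h : Rz η X a) (p : X) {ε : ℝ} (hε : 0 < ε) : ∃ m, dist p (a m) < ε :=
  h.dense.exists_dist_lt p hε

theorem Rz.dist_le (h : Rz η X a) {p q : X} {ε : ℝ}
    (hm : ∀ m, |dist p (a m) - dist q (a m)| ≤ ε) : dist p q ≤ ε := by
  refine le_of_forall_pos_le_add fun δ hδ => ?_
  obtain ⟨m, hm2⟩ := h.near q (half_pos hδ)
  have h1 := abs_le.1 (hm m)
  have h2 := dist_triangle_right p q (a m)
  linarith [h1.2]

theorem abs_dist_le (p q : X) (m : ℕ) : |dist p (a m) - dist q (a m)| ≤ dist p q :=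
  abs_dist_sub_le p q (a m)

/-- A function which satisfies the inequalities of distances is given by a point. -/
theorem Rz.exists_point [CompleteSpace X] (h : Rz η X a) {g : ℕ → ℝ}
    (h1 : ∀ m m', |g m - g m'| ≤ η m m' ∧ η m m' ≤ g m + g m')
    (h2 : ∀ N : ℕ, ∃ m, g m < 1 / ((N : ℝ) + 1)) : ∃ p : X, ∀ m, dist p (a m) = g m := by
  choose u hu using h2
  have hc : CauchySeq (fun N => a (u N)) := by
    refine cauchySeq_of_le_tendsto_0 (fun N : ℕ => 2 * (1 / ((N : ℝ) + 1))) ?_ ?_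
    · intro n k N hn hk
      rw [h.dst]
      have h3 := (h1 (u n) (u k)).2
      have h4 := Nat.one_div_le_one_div (α := ℝ) hn
      have h5 := Nat.one_div_le_one_div (α := ℝ) hk
      linarith [hu n, hu k]
    · have := (tendsto_one_div_add_atTop_nhds_zero_nat (𝕜 := ℝ)).const_mul 2
      simpa using this
  obtain ⟨p, hp⟩ := cauchySeq_tendsto_of_complete hc
  refine ⟨p, fun m => ?_⟩
  have h3 : Tendsto (fun N => dist (a (u N)) (a m)) atTop (𝓝 (dist p (a m))) :=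
    hp.dist tendsto_const_nhds
  have h4 : Tendsto (fun N => dist (a (u N)) (a m)) atTop (𝓝 (g m)) := by
    rw [Metric.tendsto_nhds]
    intro ε hε
    obtain ⟨N, hN⟩ := exists_nat_one_div_lt hε
    filter_upwards [eventually_ge_atTop N] with n hn
    have h5 := h1 (u n) m
    have h6 := abs_le.1 h5.1
    have h7 := hu n
    have h8 := Nat.one_div_le_one_div (α := ℝ) hn
    rw [h.dst, Real.dist_eq, abs_lt]
    constructor
    · linarith [h6.1]
    · linarith [h5.2]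
  exact tendsto_nhds_unique h3 h4

variable {E : Type} [NormedAddCommGroup E] [NormedSpace ℝ E] [FiniteDimensional ℝ E]

/-- The basic ball. -/
abbrev b₀ : ℕ × ℕ × ℕ := (0, 0, 0)

/-- The fixed dense sequence. -/
noncomputable abbrev dn (E : Type) [NormedAddCommGroup E] [NormedSpace ℝ E]
    [FiniteDimensional ℝ E] : ℕ → E := TopologicalSpace.denseSeq E

/-- A chart defined on the basic closed ball. -/
structure GC (f : E → X) : Prop where
  cont : ContinuousOn f (cb b₀)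
  inj : InjOn f (cb b₀)
  img : ∀ U ⊆ (ob b₀ : Set E), IsOpen U → IsOpen (f '' U)

theorem GC.ox {f : E → X} (h : GC f) : OX f (ob b₀) :=
  ⟨ob_open _, h.cont.mono (ob_sub_cb _), h.inj.mono (ob_sub_cb _), h.img⟩

/-- The chart `f` is coded by the distances `G`. -/
def Mt (a : ℕ → X) (f : E → X) (G : ℕ → ℕ → ℝ) : Prop :=
  ∀ k, dn E k ∈ (ob b₀ : Set E) → ∀ m, G k m = dist (f (dn E k)) (a m)

/-- The explicit conditions. -/
structure Gd (E : Type) [NormedAddCommGroup E] [NormedSpace ℝ E] [FiniteDimensional ℝ E]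
    (η G : ℕ → ℕ → ℝ) : Prop where
  pt : ∀ k, dn E k ∈ (ob b₀ : Set E) → ∀ m m', |G k m - G k m'| ≤ η m m' ∧ η m m' ≤ G k m + G k m'
  nr : ∀ k, dn E k ∈ (ob b₀ : Set E) → ∀ N : ℕ, ∃ m, G k m < 1 / ((N : ℝ) + 1)
  uc : ∀ N : ℕ, ∃ M : ℕ, ∀ k l, dn E k ∈ (ob b₀ : Set E) → dn E l ∈ (ob b₀ : Set E) →
    dist (dn E k) (dn E l) < 1 / ((M : ℝ) + 1) → ∀ m, |G k m - G l m| ≤ 1 / ((N : ℝ) + 1)
  ui : ∀ N : ℕ, ∃ M : ℕ, ∀ k l, dn E k ∈ (ob b₀ : Set E) → dn E l ∈ (ob b₀ : Set E) →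
    1 / ((N : ℝ) + 1) ≤ dist (dn E k) (dn E l) → ∃ m, 1 / ((M : ℝ) + 1) ≤ |G k m - G l m|
  uo : ∀ b' : ℕ × ℕ × ℕ, (cb b' : Set E) ⊆ ob b₀ → ∃ M : ℕ, ∀ m,
    (∃ k, dn E k ∈ (ob b' : Set E) ∧ G k m < 1 / ((M : ℝ) + 1)) →
    ∀ N : ℕ, ∃ l, dn E l ∈ (ob b₀ : Set E) ∧ G l m < 1 / ((N : ℝ) + 1)

theorem dn_dense {U : Set E} (hU : IsOpen U) {x : E} (hx : x ∈ closure U) {N : Set E}
    (hN : N ∈ 𝓝 x) : ∃ k, dn E k ∈ U ∧ dn E k ∈ N := by
  obtain ⟨V, hVN, hV, hxV⟩ := mem_nhds_iff.1 hN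
  obtain ⟨y, hyV, hyU⟩ := mem_closure_iff.1 hx V hV hxV
  obtain ⟨_, hz, ⟨k, rfl⟩⟩ := (TopologicalSpace.denseRange_denseSeq E).inter_open_nonempty _
    (hU.inter hV) ⟨y, hyU, hyV⟩
  exact ⟨k, hz.1, hVN hz.2⟩

theorem cb_closure (b : ℕ × ℕ × ℕ) : closure (ob b : Set E) = cb b :=
  closure_ball _ (by positivity)

theorem dn_near {b : ℕ × ℕ × ℕ} {x : E} (hx : x ∈ (cb b : Set E)) {ε : ℝ} (hε : 0 < ε) :
    ∃ k, dn E k ∈ (ob b : Set E) ∧ dist (dn E k) x < ε := by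
  rw [← cb_closure] at hx
  obtain ⟨k, h1, h2⟩ := dn_dense (ob_open b) hx (Metric.ball_mem_nhds x hε)
  exact ⟨k, h1, h2⟩

theorem GC.cont_near {f : E → X} (h : GC f) {b : ℕ × ℕ × ℕ} (hb : (cb b : Set E) ⊆ cb b₀) {x : E}
    (hx : x ∈ (cb b : Set E)) {ε δ : ℝ} (hε : 0 < ε) (hδ : 0 < δ) :
    ∃ k, dn E k ∈ (ob b : Set E) ∧ dist (dn E k) x < δ ∧ dist (f (dn E k)) (f x) < ε := by
  obtain ⟨δ', hδ', h1⟩ := Metric.continuousOn_iff.1 h.cont x (hb hx) ε hε
  obtain ⟨k, hk1, hk2⟩ := dn_near hx (lt_min hδ hδ')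
  exact ⟨k, hk1, hk2.trans_le (min_le_left _ _),
    h1 _ (hb (ob_sub_cb _ hk1)) (hk2.trans_le (min_le_right _ _))⟩

/-- A chart satisfies the explicit conditions. -/
theorem GC.gd {f : E → X} (h : GC f) (hr : Rz η X a) {G : ℕ → ℕ → ℝ} (hG : Mt a f G) :
    Gd E η G := by
  refine ⟨?_, ?_, ?_, ?_, ?_⟩
  · intro k hk m m'
    rw [hG k hk, hG k hk, ← hr.dst]
    constructor
    · have := abs_dist_sub_le (a m) (a m') (f (dn E k))
      rwa [dist_comm (a m), dist_comm (a m') (f _)] at this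
    · rw [dist_comm (f _) (a m)]
      exact dist_triangle _ _ _
  · intro k hk N
    obtain ⟨m, hm⟩ := hr.near (f (dn E k)) (ε := 1 / ((N : ℝ) + 1)) (by positivity)
    exact ⟨m, by rw [hG k hk]; exact hm⟩
  · intro N
    have h1 := (cb_compact (E := E) b₀).uniformContinuousOn_of_continuous h.cont
    rw [Metric.uniformContinuousOn_iff] at h1
    obtain ⟨δ, hδ, h1⟩ := h1 (1 / ((N : ℝ) + 1)) (by positivity)
    obtain ⟨M, hM⟩ := exists_nat_one_div_lt hδ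
    refine ⟨M, fun k l hk hl hkl m => ?_⟩
    rw [hG k hk, hG l hl]
    exact (abs_dist_le _ _ m).trans
      (h1 _ (ob_sub_cb _ hk) _ (ob_sub_cb _ hl) (hkl.trans hM)).le
  · intro N
    have hcl : IsClosed {p : E × E | 1 / ((N : ℝ) + 1) ≤ dist p.1 p.2} :=
      isClosed_le continuous_const continuous_dist
    have hS : IsCompact ((cb b₀ ×ˢ cb b₀ : Set (E × E)) ∩
        {p : E × E | 1 / ((N : ℝ) + 1) ≤ dist p.1 p.2}) :=
      ((cb_compact _).prod (cb_compact _)).inter_right hcl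
    have hcont : ContinuousOn (fun p : E × E => dist (f p.1) (f p.2))
        ((cb b₀ ×ˢ cb b₀ : Set (E × E)) ∩ {p : E × E | 1 / ((N : ℝ) + 1) ≤ dist p.1 p.2}) := by
      refine continuous_dist.comp_continuousOn (ContinuousOn.prodMk ?_ ?_)
      · exact h.cont.comp continuous_fst.continuousOn fun p hp => hp.1.1
      · exact h.cont.comp continuous_snd.continuousOn fun p hp => hp.1.2
    have hex : ∃ δ > 0, ∀ p ∈ ((cb b₀ ×ˢ cb b₀ : Set (E × E)) ∩
        {p : E × E | 1 / ((N : ℝ) + 1) ≤ dist p.1 p.2}), δ ≤ dist (f p.1) (f p.2) := by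
      rcases ((cb b₀ ×ˢ cb b₀ : Set (E × E)) ∩
        {p : E × E | 1 / ((N : ℝ) + 1) ≤ dist p.1 p.2}).eq_empty_or_nonempty with he | hne
      · exact ⟨1, one_pos, fun p hp => by rw [he] at hp; exact hp.elim⟩
      · obtain ⟨p, hp, hmin⟩ := hS.exists_isMinOn hne hcont
        refine ⟨dist (f p.1) (f p.2), ?_, fun q hq => hmin hq⟩
        rw [gt_iff_lt, dist_pos]
        intro he
        have h2 := h.inj hp.1.1 hp.1.2 he
        have h3 : 1 / ((N : ℝ) + 1) ≤ dist p.1 p.2 := hp.2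
        rw [h2, dist_self] at h3
        have : (0 : ℝ) < 1 / ((N : ℝ) + 1) := by positivity
        linarith
    obtain ⟨δ, hδ, hex⟩ := hex
    obtain ⟨M, hM⟩ := exists_nat_one_div_lt hδ
    refine ⟨M, fun k l hk hl hkl => ?_⟩
    by_contra hcon
    push Not at hcon
    have h2 : dist (f (dn E k)) (f (dn E l)) ≤ 1 / ((M : ℝ) + 1) := by
      refine hr.dist_le fun m => ?_
      rw [← hG k hk, ← hG l hl]
      exact (hcon m).le
    have h3 := hex (dn E k, dn E l) ⟨⟨ob_sub_cb _ hk, ob_sub_cb _ hl⟩, hkl⟩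
    exact absurd (h3.trans h2) (not_le.2 hM)
  · intro b' hb'
    have h1 : IsOpen (f '' ob b₀) := h.img _ Subset.rfl (ob_open _)
    have h2 : IsCompact (f '' cb b') :=
      (cb_compact b').image_of_continuousOn (h.cont.mono (hb'.trans (ob_sub_cb _)))
    obtain ⟨δ, hδ, h3⟩ := h2.exists_thickening_subset_open h1 (image_mono hb')
    obtain ⟨M, hM⟩ := exists_nat_one_div_lt hδ
    refine ⟨M, ?_⟩
    rintro m ⟨k, hk, hkm⟩ N
    have hk0 : dn E k ∈ (ob b₀ : Set E) := hb' (ob_sub_cb _ hk)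
    rw [hG k hk0] at hkm
    have h4 : a m ∈ f '' ob b₀ := by
      apply h3
      rw [Metric.mem_thickening_iff]
      refine ⟨f (dn E k), ⟨_, ob_sub_cb _ hk, rfl⟩, ?_⟩
      rw [dist_comm]
      exact hkm.trans hM
    obtain ⟨x, hx, hxm⟩ := h4
    obtain ⟨l, hl1, _, hl3⟩ := h.cont_near Subset.rfl (ob_sub_cb _ hx)
      (ε := 1 / ((N : ℝ) + 1)) (by positivity) one_pos
    refine ⟨l, hl1, ?_⟩
    rw [hG l hl1, ← hxm]
    exact hl3

/-- The explicit conditions give a chart. -/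
theorem Gd.exists_chart [CompleteSpace X] (hr : Rz η X a) {G : ℕ → ℕ → ℝ} (h : Gd E η G) :
    ∃ f : E → X, GC f ∧ Mt a f G := by
  classical
  have hex : ∀ k, ∃ p : X, dn E k ∈ (ob b₀ : Set E) → ∀ m, dist p (a m) = G k m := by
    intro k
    by_cases hk : dn E k ∈ (ob b₀ : Set E)
    · obtain ⟨p, hp⟩ := hr.exists_point (h.pt k hk) (h.nr k hk)
      exact ⟨p, fun _ => hp⟩
    · exact ⟨a 0, fun hk2 => absurd hk2 hk⟩
  choose p hp using hex
  have huc : ∀ N : ℕ, ∃ M : ℕ, ∀ k l, dn E k ∈ (ob b₀ : Set E) → dn E l ∈ (ob b₀ : Set E) →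
    dist (dn E k) (dn E l) < 1 / ((M : ℝ) + 1) → dist (p k) (p l) ≤ 1 / ((N : ℝ) + 1) := by
    intro N
    obtain ⟨M, hM⟩ := h.uc N
    refine ⟨M, fun k l hk hl hkl => hr.dist_le fun m => ?_⟩
    rw [hp k hk, hp l hl]
    exact hM k l hk hl hkl m
  set S : Set E := {x | ∃ k, dn E k = x ∧ x ∈ (ob b₀ : Set E)} with hS
  have hSc : S ⊆ cb b₀ := fun x hx => ob_sub_cb _ hx.choose_spec.2
  let κ : S → ℕ := fun x => x.2.choose
  have hκ : ∀ x : S, dn E (κ x) = x ∧ (x : E) ∈ (ob b₀ : Set E) := fun x => x.2.choose_spec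
  let f₀ : S → X := fun x => p (κ x)
  have hf₀ : UniformContinuous f₀ := by
    rw [Metric.uniformContinuous_iff]
    intro ε hε
    obtain ⟨N, hN⟩ := exists_nat_one_div_lt hε
    obtain ⟨M, hM⟩ := huc N
    refine ⟨1 / ((M : ℝ) + 1), by positivity, ?_⟩
    intro x y hxy
    refine (hM (κ x) (κ y) ?_ ?_ ?_).trans_lt hN
    · rw [(hκ x).1]
      exact (hκ x).2
    · rw [(hκ y).1]
      exact (hκ y).2
    · rw [(hκ x).1, (hκ y).1]
      exact hxy
  let ι : S → (cb b₀ : Set E) := inclusion hSc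
  have hι : IsUniformInducing ι := by
    have h1 : IsUniformInducing (Subtype.val ∘ ι) := isUniformInducing_val S
    exact (isUniformInducing_val (cb b₀ : Set E)).isUniformInducing_comp_iff.1 h1
  have hιd : DenseRange ι := by
    intro x
    rw [Metric.mem_closure_iff]
    intro ε hε
    obtain ⟨k, hk1, hk2⟩ := dn_near x.2 hε
    refine ⟨ι ⟨dn E k, k, rfl, hk1⟩, ⟨_, rfl⟩, ?_⟩
    rw [dist_comm]
    exact hk2
  have hext := uniformContinuous_uniformly_extend hι hιd hf₀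
  have hval := fun x : S => uniformly_extend_of_ind hι hιd hf₀ x
  set F := (hι.isDenseInducing hιd).extend f₀ with hF
  let f : E → X := fun x => if hx : x ∈ (cb b₀ : Set E) then F ⟨x, hx⟩ else a 0
  have hfc : ContinuousOn f (cb b₀) := by
    rw [continuousOn_iff_continuous_domRestrict]
    refine hext.continuous.congr ?_
    rintro ⟨x, hx⟩
    show F ⟨x, hx⟩ = (if hx : x ∈ (cb b₀ : Set E) then F ⟨x, hx⟩ else a 0)
    rw [dif_pos hx]
  have hfd : ∀ k, dn E k ∈ (ob b₀ : Set E) → f (dn E k) = p k := by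
    intro k hk
    have hkc : dn E k ∈ (cb b₀ : Set E) := ob_sub_cb _ hk
    have h1 : f (dn E k) = F ⟨dn E k, hkc⟩ := dif_pos hkc
    have h2 := hval ⟨dn E k, k, rfl, hk⟩
    rw [h1]
    have h3 : F ⟨dn E k, hkc⟩ = f₀ ⟨dn E k, k, rfl, hk⟩ := h2
    rw [h3]
    have h4 := (hκ ⟨dn E k, k, rfl, hk⟩).1
    have h5 : dist (p (κ ⟨dn E k, k, rfl, hk⟩)) (p k) ≤ 0 := by
      refine le_of_forall_pos_le_add fun ε hε => ?_
      obtain ⟨N, hN⟩ := exists_nat_one_div_lt hε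
      obtain ⟨M, hM⟩ := huc N
      have h6 := hM (κ ⟨dn E k, k, rfl, hk⟩) k (by rw [h4]; exact hk) hk (by
        have h7 : dn E (κ ⟨dn E k, k, rfl, hk⟩) = dn E k := h4
        rw [h7, dist_self]
        positivity)
      rw [zero_add]
      exact h6.trans hN.le
    exact dist_le_zero.1 h5
  have hmt : Mt a f G := by
    intro k hk m
    rw [hfd k hk, hp k hk]
  have hcn : ∀ {b : ℕ × ℕ × ℕ}, (cb b : Set E) ⊆ cb b₀ → ∀ {x : E},
      x ∈ (cb b : Set E) → ∀ {ε δ : ℝ}, 0 < ε → 0 < δ →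
    ∃ k, dn E k ∈ (ob b : Set E) ∧ dist (dn E k) x < δ ∧ dist (f (dn E k)) (f x) < ε := by
    intro b hb x hx ε δ hε hδ
    obtain ⟨δ', hδ', h1⟩ := Metric.continuousOn_iff.1 hfc x (hb hx) ε hε
    obtain ⟨k, hk1, hk2⟩ := dn_near hx (lt_min hδ hδ')
    exact ⟨k, hk1, hk2.trans_le (min_le_left _ _),
      h1 _ (hb (ob_sub_cb _ hk1)) (hk2.trans_le (min_le_right _ _))⟩
  have hinj : InjOn f (cb b₀) := by
    intro x hx y hy hxy
    by_contra hne
    have hd : 0 < dist x y := dist_pos.2 hne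
    obtain ⟨N, hN⟩ := exists_nat_one_div_lt (half_pos hd)
    obtain ⟨M, hM⟩ := h.ui N
    have hpos : (0 : ℝ) < 1 / ((M : ℝ) + 1) := by positivity
    obtain ⟨k, hk1, hk2, hk3⟩ := hcn Subset.rfl hx
      (ε := 1 / ((M : ℝ) + 1) / 3) (by positivity) (δ := dist x y / 4) (by positivity)
    obtain ⟨l, hl1, hl2, hl3⟩ := hcn Subset.rfl hy
      (ε := 1 / ((M : ℝ) + 1) / 3) (by positivity) (δ := dist x y / 4) (by positivity)
    have h1 : 1 / ((N : ℝ) + 1) ≤ dist (dn E k) (dn E l) := by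
      have h2 := dist_triangle4 x (dn E k) (dn E l) y
      rw [dist_comm x (dn E k)] at h2
      linarith
    obtain ⟨m, hm⟩ := hM k l hk1 hl1 h1
    rw [hmt k hk1, hmt l hl1] at hm
    have h2 := hm.trans (abs_dist_le _ _ m)
    have h3 := dist_triangle4 (f (dn E k)) (f x) (f y) (f (dn E l))
    rw [hxy, dist_self, dist_comm (f y)] at h3
    rw [hxy] at hk3
    linarith
  refine ⟨f, ⟨hfc, hinj, ?_⟩, hmt⟩
  intro U hU hUo
  rw [isOpen_iff_mem_nhds]
  rintro _ ⟨x, hx, rfl⟩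
  obtain ⟨b', _, hb1, hb2⟩ := exists_rb 0 ((ob_open (E := E) b₀).mem_nhds (hU hx))
  obtain ⟨M, hM⟩ := h.uo b' hb2
  have hpos : (0 : ℝ) < 1 / ((M : ℝ) + 1) / 2 := by positivity
  have hcbc : IsCompact (f '' cb b₀) := (cb_compact b₀).image_of_continuousOn hfc
  obtain ⟨k, hk1, _, hk3⟩ := hcn (hb2.trans (ob_sub_cb _)) (ob_sub_cb _ hb1) hpos one_pos
  have h1 : ∀ m, a m ∈ Metric.ball (f x) (1 / ((M : ℝ) + 1) / 2) → a m ∈ f '' cb b₀ := by
    intro m hm
    have hk0 : dn E k ∈ (ob b₀ : Set E) := hb2 (ob_sub_cb _ hk1)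
    have h2 := hM m ⟨k, hk1, by
      rw [hmt k hk0]
      have h3 := dist_triangle (f (dn E k)) (f x) (a m)
      rw [Metric.mem_ball, dist_comm] at hm
      linarith⟩
    rw [← hcbc.isClosed.closure_eq, Metric.mem_closure_iff]
    intro ε hε
    obtain ⟨N, hN⟩ := exists_nat_one_div_lt hε
    obtain ⟨l, hl1, hl2⟩ := h2 N
    refine ⟨f (dn E l), ⟨_, ob_sub_cb _ hl1, rfl⟩, ?_⟩
    rw [hmt l hl1] at hl2
    rw [dist_comm]
    exact hl2.trans hN
  have h2 : Metric.ball (f x) (1 / ((M : ℝ) + 1) / 2) ⊆ f '' cb b₀ := by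
    intro y hy
    rw [← hcbc.isClosed.closure_eq, mem_closure_iff]
    intro V hV hyV
    obtain ⟨_, hz, ⟨m, rfl⟩⟩ := hr.dense.inter_open_nonempty _ (Metric.isOpen_ball.inter hV)
      ⟨y, hy, hyV⟩
    exact ⟨_, hz.2, h1 m hz.1⟩
  have h3 : IsClosed (f '' (cb b₀ \ U)) :=
    (((cb_compact b₀).diff hUo).image_of_continuousOn (hfc.mono diff_subset)).isClosed
  have h4 : f x ∉ f '' (cb b₀ \ U) := by
    rintro ⟨y, hy, hyx⟩
    have := hinj hy.1 (ob_sub_cb _ (hU hx)) hyx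
    rw [this] at hy
    exact hy.2 hx
  filter_upwards [Metric.ball_mem_nhds (f x) hpos, h3.isOpen_compl.mem_nhds h4] with y hy hy2
  obtain ⟨z, hz, rfl⟩ := h2 hy
  by_cases hzU : z ∈ U
  · exact ⟨z, hzU, rfl⟩
  · exact absurd ⟨z, ⟨hz, hzU⟩, rfl⟩ hy2

end Pool.Agent.H655.MC
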