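import Pool.Agent.H655.MC.Geom

/-!
The Borel selection of charts.
-/

open Set Filter Topology MeasureTheory

namespace Pool.Agent.H655.MC

open Pool.Agent.H655.CM

/-- The type of conditions. -/
abbrev Wt : Type := List ((ℕ × ℕ × ℕ) × ℕ × ℕ)

/-- An enumeration of the conditions. -/
noncomputable def dec : ℕ → Wt := (exists_surjective_nat Wt).choose

theorem dec_surj (W : Wt) : ∃ k, dec k = W := (exists_surjective_nat Wt).choose_spec W

section Sel

variable (E : Type) [NormedAddCommGroup E] [NormedSpace ℝ E] [FiniteDimensional ℝ E]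
variable (B : Wt → Set Et)

open Classical in
/-- The next block of conditions. -/
noncomputable def selV (η : Et) (n : ℕ) (p : Wt) : Wt :=
  if h : ∃ k, η ∈ B (p ++ dec k) ∧ fine E η n (dec k) then dec (Nat.find h) else []

/-- The sequence of conditions. -/
noncomputable def sq (p₀ : Wt) (η : Et) : ℕ → Wt
  | 0 => p₀
  | n + 1 => sq p₀ η n ++ selV E B η n (sq p₀ η n)

/-- The blocks. -/
noncomputable def Vn (p₀ : Wt) (η : Et) (n : ℕ) : Wt := selV E B η n (sq E B p₀ η n)

open Classical in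
/-- The center of the ball of the block which contains the image of a point. -/
noncomputable def mid (p₀ : Wt) (k : ℕ) (n : ℕ) (η : Et) : ℕ :=
  match (Vn E B p₀ η n).find? (fun w => dn E k ∈ (cb w.1 : Set E)) with
  | none => 0
  | some w => w.2.1

/-- The distances of the limit chart. -/
noncomputable def FF (p₀ : Wt) (η : Et) (k m : ℕ) : ℝ :=
  ⨅ n : ℕ, (η (mid E B p₀ k n η) m + 1 / ((n : ℝ) + 1))

end Sel

section Meas

variable {E : Type} [NormedAddCommGroup E] [NormedSpace ℝ E] [FiniteDimensional ℝ E]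
variable {B : Wt → Set Et}

/-- Functions with countably many values and Borel fibers. -/
def FB {α : Type} (f : Et → α) : Prop := ∀ W, Measurable (fun η : Et => f η = W)

theorem FB.bind {α : Type} [Countable α] {f : Et → α} (hf : FB f) {Q : α → Et → Prop}
    (hQ : ∀ W, Measurable (Q W)) : Measurable (fun η => Q (f η) η) := by
  have : (fun η => Q (f η) η) = fun η => ∃ W, f η = W ∧ Q W η := by
    funext η
    exact propext ⟨fun h => ⟨_, rfl, h⟩, fun ⟨W, h1, h2⟩ => h1 ▸ h2⟩
  rw [this]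
  exact Measurable.exists fun W => (hf W).and (hQ W)

theorem FB.bind' {α β : Type} [Countable α] {f : Et → α} (hf : FB f) {g : α → Et → β}
    (hg : ∀ W, FB (g W)) : FB (fun η => g (f η) η) := fun V => hf.bind fun W => hg W V

theorem FB.const {α : Type} (c : α) : FB (fun _ => c) := fun _ => m_const _

theorem FB.map {α β : Type} [Countable α] {f : Et → α} (hf : FB f) (g : α → β) :
    FB (fun η => g (f η)) := hf.bind' (g := fun W _ => g W) fun _ => FB.const _

open Classical in
theorem FB.ite {α : Type} {p : Et → Prop} (hp : Measurable p) {f g : Et → α} (hf : FB f)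
    (hg : FB g) : FB (fun η => if p η then f η else g η) := by
  intro W
  have : (fun η => (if p η then f η else g η) = W) =
      fun η => (p η ∧ f η = W) ∨ (¬ p η ∧ g η = W) := by
    funext η
    by_cases h : p η <;> simp [h]
  rw [this]
  exact (hp.and (hf W)).or (hp.not.and (hg W))

theorem m_fine (n : ℕ) (V : Wt) : Measurable (fun η : Et => fine E η n V) := by
  unfold fine
  refine (m_const _).and ((m_const _).and ?_)
  refine Measurable.forall fun w => (m_const _).imp (Measurable.forall fun w' =>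
    (m_const _).imp ((m_const _).imp (m_lt measurable_const ?_)))
  exact (measurable_pi_apply w'.2.1).comp (measurable_pi_apply w.2.1)

open Classical in
theorem fb_selV (hB : ∀ W, MeasurableSet (B W)) (n : ℕ) (p : Wt) :
    FB (fun η => selV E B η n p) := by
  have hq : ∀ k, Measurable (fun η => η ∈ B (p ++ dec k) ∧ fine E η n (dec k)) := fun k =>
    (measurableSet_setOfPred.1 (hB _)).and (m_fine n _)
  intro W
  have : (fun η => selV E B η n p = W) = fun η =>
      (∃ k, ((η ∈ B (p ++ dec k) ∧ fine E η n (dec k)) ∧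
        ∀ j, j < k → ¬ (η ∈ B (p ++ dec j) ∧ fine E η n (dec j))) ∧ dec k = W) ∨
      ((¬ ∃ k, η ∈ B (p ++ dec k) ∧ fine E η n (dec k)) ∧ [] = W) := by
    funext η
    by_cases h : ∃ k, η ∈ B (p ++ dec k) ∧ fine E η n (dec k)
    · unfold selV
      rw [dif_pos h]
      apply propext
      constructor
      · intro h1
        exact Or.inl ⟨Nat.find h, ⟨Nat.find_spec h, fun j hj => Nat.find_min h hj⟩, h1⟩
      · rintro (⟨k, ⟨h1, h2⟩, h3⟩ | ⟨h1, _⟩)
        · have : Nat.find h = k := (Nat.find_eq_iff h).2 ⟨h1, h2⟩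
          rw [this]
          exact h3
        · exact absurd h h1
    · unfold selV
      rw [dif_neg h]
      apply propext
      constructor
      · intro h1
        exact Or.inr ⟨h, h1⟩
      · rintro (⟨k, ⟨h1, h2⟩, h3⟩ | ⟨_, h1⟩)
        · exact absurd ⟨k, h1⟩ h
        · exact h1
  rw [this]
  refine (Measurable.exists fun k => ((hq k).and (Measurable.forall fun j =>
    (m_const _).imp (hq j).not)).and (m_const _)).or
    ((Measurable.exists hq).not.and (m_const _))

theorem fb_sq (hB : ∀ W, MeasurableSet (B W)) (p₀ : Wt) (n : ℕ) :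
    FB (fun η => sq E B p₀ η n) := by
  induction n with
  | zero => exact FB.const _
  | succ n ih =>
    have h1 : FB (fun η => (fun (W : Wt) (η : Et) => W ++ selV E B η n W) (sq E B p₀ η n) η) := by
      refine ih.bind' (g := fun (W : Wt) (η : Et) => W ++ selV E B η n W) fun W => ?_
      exact (fb_selV hB n W).map (fun V => W ++ V)
    exact h1

theorem fb_Vn (hB : ∀ W, MeasurableSet (B W)) (p₀ : Wt) (n : ℕ) :
    FB (fun η => Vn E B p₀ η n) :=
  (fb_sq hB p₀ n).bind' (g := fun W η => selV E B η n W) fun W => fb_selV hB n W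

open Classical in
theorem fb_mid (hB : ∀ W, MeasurableSet (B W)) (p₀ : Wt) (k n : ℕ) :
    FB (mid E B p₀ k n) :=
  (fb_Vn hB p₀ n).map (fun V => match V.find? (fun w => dn E k ∈ (cb w.1 : Set E)) with
    | none => 0
    | some w => w.2.1)

theorem m_FF (hB : ∀ W, MeasurableSet (B W)) (p₀ : Wt) (k m : ℕ) :
    Measurable (fun η => FF E B p₀ η k m) := by
  unfold FF
  refine Measurable.iInf fun n => Measurable.add ?_ measurable_const
  intro S hS
  have h1 : Measurable (fun η : Et => η (mid E B p₀ k n η) m ∈ S) :=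
    (fb_mid hB p₀ k n).bind (Q := fun j η => η j m ∈ S) fun j => by
      have : MeasurableSet ((fun η : Et => η j m) ⁻¹' S) :=
        ((measurable_pi_apply m).comp (measurable_pi_apply j)) hS
      exact measurableSet_setOfPred.1 this
  exact measurableSet_setOfPred.2 h1

end Meas

section Lim

variable {E : Type} [NormedAddCommGroup E] [NormedSpace ℝ E] [FiniteDimensional ℝ E]
variable {B : Wt → Set Et}
variable {X : Type} [MetricSpace X] {a : ℕ → X} {η : Et}

theorem sq_mono (p₀ : Wt) {n n' : ℕ} (h : n ≤ n') : ∀ w ∈ sq E B p₀ η n, w ∈ sq E B p₀ η n' := by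
  induction n', h using Nat.le_induction with
  | base => exact fun w hw => hw
  | succ n' _ ih => exact fun w hw => List.mem_append.2 (Or.inl (ih w hw))

theorem Vn_sub (p₀ : Wt) (n : ℕ) : ∀ w ∈ Vn E B p₀ η n, w ∈ sq E B p₀ η (n + 1) :=
  fun _ hw => List.mem_append.2 (Or.inr hw)

theorem sel_step (hr : Rz η X a) (hB : ∀ W, η ∈ B W ↔ ∃ g : E → X, TC g ∧ Sat a g W) {p : Wt}
    (hp : η ∈ B p) (n : ℕ) : η ∈ B (p ++ selV E B η n p) ∧ fine E η n (selV E B η n p) := by
  classical
  have h : ∃ k, η ∈ B (p ++ dec k) ∧ fine E η n (dec k) := by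
    obtain ⟨g, hg, hs⟩ := (hB p).1 hp
    obtain ⟨V, hV, hsV⟩ := exists_fine hr hg n
    obtain ⟨k, rfl⟩ := dec_surj V
    refine ⟨k, (hB _).2 ⟨g, hg, ?_⟩, hV⟩
    intro w hw
    rcases List.mem_append.1 hw with h | h
    · exact hs w h
    · exact hsV w h
  unfold selV
  rw [dif_pos h]
  exact Nat.find_spec h

theorem sq_mem (hr : Rz η X a) (hB : ∀ W, η ∈ B W ↔ ∃ g : E → X, TC g ∧ Sat a g W) {p₀ : Wt}
    (hp : η ∈ B p₀) (n : ℕ) : η ∈ B (sq E B p₀ η n) := by
  induction n with
  | zero => exact hp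
  | succ n ih => exact (sel_step hr hB ih n).1

/-- The limit chart. -/
theorem exists_lim [CompleteSpace X] [LocallyConnectedSpace X] (hr : Rz η X a)
    (hB : ∀ W, η ∈ B W ↔ ∃ g : E → X, TC g ∧ Sat a g W) {p₀ : Wt} (hp : η ∈ B p₀) :
    ∃ f : E → X, GC f ∧ CSat a f p₀ ∧ Mt a f (FF E B p₀ η) := by
  classical
  have hfine : ∀ n, fine E η n (Vn E B p₀ η n) := fun n => (sel_step hr hB (sq_mem hr hB hp n) n).2
  have hg : ∀ n, ∃ g : E → X, TC g ∧ Sat a g (sq E B p₀ η (n + 1)) := fun n =>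
    (hB _).1 (sq_mem hr hB hp (n + 1))
  choose g hgT hgS using hg
  have hcl : ∀ j, ∀ x ∈ (cb b₀ : Set E), ∃ w ∈ Vn E B p₀ η j, x ∈ (cb w.1 : Set E) ∧
      1 / ((w.2.2 : ℝ) + 1) ≤ 1 / ((j : ℝ) + 1) ∧
      ∀ n, j ≤ n → dist (g n x) (a w.2.1) < 1 / ((w.2.2 : ℝ) + 1) := by
    intro j x hx
    obtain ⟨w, hw, hxw⟩ := (hfine j).1 x hx
    refine ⟨w, hw, hxw, Nat.one_div_le_one_div ((hfine j).2.1 w hw), fun n hn => ?_⟩
    exact hgS n w (sq_mono p₀ (Nat.succ_le_succ hn) w (Vn_sub p₀ j w hw)) x ⟨hxw, hx⟩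
  have hcau : ∀ j n n', j ≤ n → j ≤ n' → ∀ x ∈ (cb b₀ : Set E),
      dist (g n x) (g n' x) ≤ 2 * (1 / ((j : ℝ) + 1)) := by
    intro j n n' hn hn' x hx
    obtain ⟨w, _, _, h2, h3⟩ := hcl j x hx
    have h4 := h3 n hn
    have h5 := h3 n' hn'
    have h6 := dist_triangle_right (g n x) (g n' x) (a w.2.1)
    linarith
  have hlim0 : Tendsto (fun n : ℕ => 2 * (1 / ((n : ℝ) + 1))) atTop (𝓝 0) := by
    have := (tendsto_one_div_add_atTop_nhds_zero_nat (𝕜 := ℝ)).const_mul 2
    simpa using this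
  have hex : ∀ x, ∃ y : X, x ∈ (cb b₀ : Set E) → Tendsto (fun n => g n x) atTop (𝓝 y) := by
    intro x
    by_cases hx : x ∈ (cb b₀ : Set E)
    · have hc : CauchySeq (fun n => g n x) :=
        cauchySeq_of_le_tendsto_0 (fun N : ℕ => 2 * (1 / ((N : ℝ) + 1)))
          (fun n m N hn hm => hcau N n m hn hm x hx) hlim0
      obtain ⟨y, hy⟩ := cauchySeq_tendsto_of_complete hc
      exact ⟨y, fun _ => hy⟩
    · exact ⟨a 0, fun h => absurd h hx⟩
  choose f hf using hex
  have hdist : ∀ n, ∀ x ∈ (cb b₀ : Set E), dist (g n x) (f x) ≤ 2 * (1 / ((n : ℝ) + 1)) := by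
    intro n x hx
    refine le_of_tendsto (tendsto_const_nhds.dist (hf x hx)) ?_
    filter_upwards [eventually_ge_atTop n] with n' hn'
    exact hcau n n n' le_rfl hn' x hx
  have hu : ∀ ε > 0, ∀ᶠ n in atTop, ∀ x ∈ (cb b₀ : Set E), dist (g n x) (f x) < ε := by
    intro ε hε
    have := hlim0.eventually (Iio_mem_nhds hε)
    filter_upwards [this] with n hn x hx
    exact (hdist n x hx).trans_lt hn
  have hcs : ∀ n, CSat a f (sq E B p₀ η (n + 1)) := by
    intro n w hw x hx
    refine le_of_tendsto ((hf x hx.2).dist tendsto_const_nhds) ?_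
    filter_upwards [eventually_ge_atTop n] with n' hn'
    exact (hgS n' w (sq_mono p₀ (Nat.succ_le_succ hn') w hw) x hx).le
  have hcont : ContinuousOn f (cb b₀) := by
    have h1 : TendstoUniformlyOn g f atTop (cb b₀) := by
      rw [Metric.tendstoUniformlyOn_iff]
      intro ε hε
      filter_upwards [hu ε hε] with n hn x hx
      rw [dist_comm]
      exact hn x hx
    exact h1.continuousOn (Eventually.of_forall fun n => (hgT n).gc.cont).frequently
  have hVf : ∀ n, ∀ x ∈ (cb b₀ : Set E), ∀ w ∈ Vn E B p₀ η n, x ∈ (cb w.1 : Set E) →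
      dist (f x) (a w.2.1) ≤ 1 / ((w.2.2 : ℝ) + 1) := by
    intro n x hx w hw hxw
    exact hcs n w (Vn_sub p₀ n w hw) x ⟨hxw, hx⟩
  have hinj : InjOn f (cb b₀) := by
    intro x hx y hy hxy
    by_contra hne
    obtain ⟨n, hn⟩ := exists_nat_one_div_lt (dist_pos.2 hne)
    obtain ⟨w, hw, hxw⟩ := (hfine n).1 x hx
    obtain ⟨w', hw', hyw⟩ := (hfine n).1 y hy
    have h1 := (hfine n).2.2 w hw w' hw' ⟨x, ⟨hxw, hx⟩, y, ⟨hyw, hy⟩, hn.le⟩
    have h2 := hVf n x hx w hw hxw
    have h3 := hVf n y hy w' hw' hyw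
    rw [← hr.dst] at h1
    have h4 := dist_triangle_left (a w.2.1) (a w'.2.1) (f x)
    rw [hxy] at h4 h2
    linarith
  have hgc : GC f := ⟨hcont, hinj, open_limit (fun n => (hgT n).gc) hu hcont hinj⟩
  refine ⟨f, hgc, ?_, ?_⟩
  · intro w hw x hx
    exact hcs 0 w (sq_mono p₀ (Nat.zero_le 1) w hw) x hx
  · intro k hk m
    have hmid : ∀ n, |η (mid E B p₀ k n η) m - dist (f (dn E k)) (a m)| ≤ 1 / ((n : ℝ) + 1) := by
      intro n
      have hkc : dn E k ∈ (cb b₀ : Set E) := ob_sub_cb _ hk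
      obtain ⟨w₀, hw₀, hkw₀⟩ := (hfine n).1 _ hkc
      have h1 : ∃ w, (Vn E B p₀ η n).find? (fun w => dn E k ∈ (cb w.1 : Set E)) = some w := by
        rw [← Option.isSome_iff_exists, List.find?_isSome]
        exact ⟨w₀, hw₀, by simpa using hkw₀⟩
      obtain ⟨w, hw⟩ := h1
      have h2 : mid E B p₀ k n η = w.2.1 := by
        unfold mid
        rw [hw]
      have h3 : w ∈ Vn E B p₀ η n := List.mem_of_find?_eq_some hw
      have h4 : dn E k ∈ (cb w.1 : Set E) := by
        have := List.find?_some hw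
        simpa using this
      have h5 := hVf n _ hkc w h3 h4
      have h6 : 1 / ((w.2.2 : ℝ) + 1) ≤ 1 / ((n : ℝ) + 1) :=
        Nat.one_div_le_one_div ((hfine n).2.1 w h3)
      rw [h2, ← hr.dst]
      have h7 := abs_dist_sub_le (a w.2.1) (f (dn E k)) (a m)
      rw [dist_comm (a w.2.1) (f _)] at h7
      linarith
    have hlow : ∀ n, dist (f (dn E k)) (a m) ≤ η (mid E B p₀ k n η) m + 1 / ((n : ℝ) + 1) := by
      intro n
      have := (abs_le.1 (hmid n)).1
      linarith
    unfold FF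
    apply le_antisymm
    · refine le_of_forall_pos_le_add fun ε hε => ?_
      obtain ⟨n, hn⟩ := exists_nat_one_div_lt (half_pos hε)
      have h1 : (⨅ n : ℕ, (η (mid E B p₀ k n η) m + 1 / ((n : ℝ) + 1))) ≤
          η (mid E B p₀ k n η) m + 1 / ((n : ℝ) + 1) :=
        ciInf_le ⟨dist (f (dn E k)) (a m), by rintro _ ⟨n, rfl⟩; exact hlow n⟩ n
      have h2 := (abs_le.1 (hmid n)).2
      linarith
    · exact le_ciInf hlow

end Lim

end Pool.Agent.H655.MC
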