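import Pool.Agent.H655.MC.Emb

/-!
Separation: the existence of charts with prescribed approximate values is a Borel condition on the
metric codes of manifolds.
-/

open Set Filter Topology MeasureTheory

namespace Pool.Agent.H655.MC

open Pool.Agent.H655.CM

variable {E : Type} [NormedAddCommGroup E] [NormedSpace ℝ E] [FiniteDimensional ℝ E]
variable {X : Type} [MetricSpace X] {a : ℕ → X} {η : ℕ → ℕ → ℝ} {F : ℕ → ℕ → ℕ → ℝ}
  {f : ℕ → E → X}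

/-- The space of metric codes. -/
abbrev Et : Type := ℕ → ℕ → ℝ

/-- The point `a k` lies in the union of the balls of the list. -/
def inK (η : Et) (κ : List (ℕ × ℕ)) (k : ℕ) : Prop := ∃ p ∈ κ, η p.1 k < 1 / ((p.2 : ℝ) + 1)

/-- The union of the balls of the list is totally bounded. -/
def TB (η : Et) (κ : List (ℕ × ℕ)) : Prop :=
  ∀ N : ℕ, ∃ S : Finset ℕ, ∀ k, inK η κ k → ∃ m ∈ S, η m k < 1 / ((N : ℝ) + 1)

/-- The union of the balls is covered by the charts. -/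
def CV (E : Type) [NormedAddCommGroup E] [NormedSpace ℝ E] [FiniteDimensional ℝ E]
    (κ : List (ℕ × ℕ)) (ω : Dat) : Prop :=
  ∃ Λ : List (ℕ × (ℕ × ℕ × ℕ)), (∀ q ∈ Λ, (cb q.2 : Set E) ⊆ ob b₀) ∧
    ∀ k, inK ω.1 κ k → ∃ q ∈ Λ, ∀ N : ℕ, ∃ l, dn E l ∈ (ob q.2 : Set E) ∧
      ω.2 q.1 l k < 1 / ((N : ℝ) + 1)

theorem m_inK (κ : List (ℕ × ℕ)) (k : ℕ) : Measurable (fun η : Et => inK η κ k) :=
  Measurable.exists fun p => (m_const _).and (m_lt
    ((measurable_pi_apply k).comp (measurable_pi_apply p.1)) measurable_const)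

theorem m_TB (κ : List (ℕ × ℕ)) : Measurable (fun η : Et => TB η κ) :=
  Measurable.forall fun _ => Measurable.exists fun _ => Measurable.forall fun k =>
    (m_inK κ k).imp (Measurable.exists fun m => (m_const _).and (m_lt
      ((measurable_pi_apply k).comp (measurable_pi_apply m)) measurable_const))

theorem m_CV (κ : List (ℕ × ℕ)) : Measurable (CV E κ) :=
  Measurable.exists fun Λ => (m_const _).and (Measurable.forall fun k =>
    ((m_inK κ k).comp measurable_fst).imp (Measurable.exists fun q => (m_const _).and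
      (Measurable.forall fun N => Measurable.exists fun l => (m_const _).and
        (m_lt (m_F q.1 l k) measurable_const))))

/-- The first analytic set. -/
def A₁ (E : Type) [NormedAddCommGroup E] [NormedSpace ℝ E] [FiniteDimensional ℝ E]
    (W : List ((ℕ × ℕ × ℕ) × ℕ × ℕ)) : Set Et := {η | ∃ F, BW E W (η, F)}

/-- The second analytic set. -/
def A₂ (E : Type) [NormedAddCommGroup E] [NormedSpace ℝ E] [FiniteDimensional ℝ E]
    (W : List ((ℕ × ℕ × ℕ) × ℕ × ℕ)) : Set Et :=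
  ⋂ κ : List (ℕ × ℕ), ⋃ i : Bool, if i then {η | ¬ TB η κ} else
    {η | ∃ F, GF E η F ∧ CV E κ (η, F) ∧ ¬ BW E W (η, F)}

theorem proj_analytic {P : Dat → Prop} (hP : Measurable P) :
    AnalyticSet {η : Et | ∃ F, P (η, F)} := by
  have h1 : {η : Et | ∃ F, P (η, F)} = Prod.fst '' {ω : Dat | P ω} := by
    ext η
    constructor
    · rintro ⟨F, hF⟩
      exact ⟨(η, F), hF, rfl⟩
    · rintro ⟨⟨η', F⟩, hF, rfl⟩
      exact ⟨F, hF⟩
  rw [h1]
  have h2 : MeasurableSet {ω : Dat | P ω} := measurableSet_setOfPred.2 hP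
  exact (h2.analyticSet).image_of_continuous continuous_fst

theorem A₁_analytic (W : List ((ℕ × ℕ × ℕ) × ℕ × ℕ)) : AnalyticSet (A₁ E W) :=
  proj_analytic (m_BW W)

theorem A₂_analytic (W : List ((ℕ × ℕ × ℕ) × ℕ × ℕ)) : AnalyticSet (A₂ E W) := by
  refine AnalyticSet.iInter fun κ => AnalyticSet.iUnion fun i => ?_
  cases i
  · exact proj_analytic (P := fun ω => GF E ω.1 ω.2 ∧ CV E κ ω ∧ ¬ BW E W ω)
      (m_GF.and ((m_CV κ).and (m_BW W).not))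
  · have h2 : MeasurableSet {η : Et | ¬ TB η κ} := measurableSet_setOfPred.2 (m_TB κ).not
    exact h2.analyticSet

/-- The balls around the dense sequence form a basis. -/
theorem Rz.basis (h : Rz η X a) {x : X} {O : Set X} (hO : O ∈ 𝓝 x) :
    ∃ m r : ℕ, x ∈ Metric.ball (a m) (1 / ((r : ℝ) + 1)) ∧
      Metric.closedBall (a m) (1 / ((r : ℝ) + 1)) ⊆ O := by
  obtain ⟨ε, hε, hO⟩ := Metric.mem_nhds_iff.1 hO
  obtain ⟨r, hr⟩ := exists_nat_one_div_lt (half_pos hε)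
  obtain ⟨m, hm⟩ := h.near x (ε := 1 / ((r : ℝ) + 1)) (by positivity)
  refine ⟨m, r, hm, ?_⟩
  intro y hy
  apply hO
  rw [Metric.mem_closedBall] at hy
  rw [Metric.mem_ball]
  have := dist_triangle_right y x (a m)
  linarith

/-- The union of the balls. -/
def KS (a : ℕ → X) (κ : List (ℕ × ℕ)) : Set X :=
  ⋃ p ∈ κ, Metric.ball (a p.1) (1 / ((p.2 : ℝ) + 1))

theorem KS_open (κ : List (ℕ × ℕ)) : IsOpen (KS a κ) :=
  isOpen_biUnion fun _ _ => Metric.isOpen_ball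

theorem Rz.inK_iff (h : Rz η X a) (κ : List (ℕ × ℕ)) (k : ℕ) : inK η κ k ↔ a k ∈ KS a κ := by
  unfold inK KS
  simp only [mem_iUnion, Metric.mem_ball]
  refine exists_congr fun p => ?_
  rw [dist_comm, h.dst]
  exact ⟨fun ⟨h1, h2⟩ => ⟨h1, h2⟩, fun ⟨h1, h2⟩ => ⟨h1, h2⟩⟩

theorem Rz.KS_closure (h : Rz η X a) (κ : List (ℕ × ℕ)) :
    KS a κ ⊆ closure {x | ∃ k, inK η κ k ∧ a k = x} := by
  intro x hx
  rw [mem_closure_iff]
  intro V hV hxV
  obtain ⟨_, hz, ⟨k, rfl⟩⟩ := h.dense.inter_open_nonempty _ ((KS_open κ).inter hV) ⟨x, hx, hxV⟩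
  exact ⟨_, hz.2, k, (h.inK_iff κ k).2 hz.1, rfl⟩

/-- A compact set in the image of a test chart has a totally bounded neighbourhood. -/
theorem Rz.exists_KS (h : Rz η X a) {g : E → X} {U : Set E} (hU : (cb b₀ : Set E) ⊆ U)
    (hg : OX g U) : ∃ κ : List (ℕ × ℕ), TB η κ ∧ ∀ x ∈ (cb b₀ : Set E), g x ∈ KS a κ := by
  have : ProperSpace E := FiniteDimensional.proper_real E
  obtain ⟨Q, hQ, hQ1, hQ2⟩ := exists_compact_between (cb_compact (E := E) b₀) hg.op hU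
  have hgQ : IsCompact (g '' Q) := hQ.image_of_continuousOn (hg.cont.mono hQ2)
  have hgo : IsOpen (g '' interior Q) :=
    hg.img _ (interior_subset.trans hQ2) isOpen_interior
  have hcpt : IsCompact (g '' cb b₀) :=
    (cb_compact b₀).image_of_continuousOn (hg.cont.mono hU)
  have hlist : ∃ κ : List (ℕ × ℕ), g '' cb b₀ ⊆ KS a κ ∧ KS a κ ⊆ g '' Q := by
    refine hcpt.induction_on (p := fun S => ∃ κ : List (ℕ × ℕ), S ⊆ KS a κ ∧ KS a κ ⊆ g '' Q)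
      ?_ ?_ ?_ ?_
    · exact ⟨[], empty_subset _, by simp [KS]⟩
    · rintro S S' hSS ⟨κ, h1, h2⟩
      exact ⟨κ, hSS.trans h1, h2⟩
    · rintro S S' ⟨κ, h1, h2⟩ ⟨κ', h3, h4⟩
      refine ⟨κ ++ κ', ?_, ?_⟩
      · rintro x (hx | hx)
        · obtain ⟨p, hp, hxp⟩ := mem_iUnion₂.1 (h1 hx)
          exact mem_iUnion₂.2 ⟨p, List.mem_append.2 (Or.inl hp), hxp⟩
        · obtain ⟨p, hp, hxp⟩ := mem_iUnion₂.1 (h3 hx)
          exact mem_iUnion₂.2 ⟨p, List.mem_append.2 (Or.inr hp), hxp⟩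
      · intro x hx
        obtain ⟨p, hp, hxp⟩ := mem_iUnion₂.1 hx
        rcases List.mem_append.1 hp with h5 | h5
        · exact h2 (mem_iUnion₂.2 ⟨p, h5, hxp⟩)
        · exact h4 (mem_iUnion₂.2 ⟨p, h5, hxp⟩)
    · intro x hx
      have hx2 : g '' interior Q ∈ 𝓝 x := hgo.mem_nhds (image_mono hQ1 hx)
      obtain ⟨m, r, h1, h2⟩ := h.basis hx2
      refine ⟨Metric.ball (a m) (1 / ((r : ℝ) + 1)),
        mem_nhdsWithin_of_mem_nhds (Metric.isOpen_ball.mem_nhds h1), [(m, r)], ?_, ?_⟩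
      · intro y hy
        exact mem_iUnion₂.2 ⟨(m, r), List.mem_singleton.2 rfl, hy⟩
      · intro y hy
        obtain ⟨p, hp, hyp⟩ := mem_iUnion₂.1 hy
        rw [List.mem_singleton.1 hp] at hyp
        exact image_mono interior_subset (h2 (Metric.ball_subset_closedBall hyp))
  obtain ⟨κ, h1, h2⟩ := hlist
  refine ⟨κ, ?_, fun x hx => h1 ⟨x, hx, rfl⟩⟩
  intro N
  obtain ⟨S, hS⟩ := hgQ.elim_finite_subcover (fun m => Metric.ball (a m) (1 / ((N : ℝ) + 1)))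
    (fun m => Metric.isOpen_ball) (by
      intro x _
      obtain ⟨m, hm⟩ := h.near x (ε := 1 / ((N : ℝ) + 1)) (by positivity)
      exact mem_iUnion.2 ⟨m, hm⟩)
  refine ⟨S, fun k hk => ?_⟩
  obtain ⟨m, hm, hkm⟩ := mem_iUnion₂.1 (hS (h2 ((h.inK_iff κ k).1 hk)))
  refine ⟨m, hm, ?_⟩
  rw [← h.dst, dist_comm]
  exact hkm

theorem RF.cv_sub (h : RF η F X a f) {κ : List (ℕ × ℕ)} (hc : CV E κ (η, F)) :
    KS a κ ⊆ ⋃ i, f i '' (ob b₀ : Set E) := by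
  obtain ⟨Λ, h1, h2⟩ := hc
  have hQ : IsCompact (⋃ q ∈ Λ, f q.1 '' (cb q.2 : Set E)) := by
    have : (⋃ q ∈ Λ, f q.1 '' (cb q.2 : Set E)) =
        ⋃ q ∈ {q : ℕ × (ℕ × ℕ × ℕ) | q ∈ Λ}, f q.1 '' (cb q.2 : Set E) := rfl
    rw [this]
    exact (List.finite_toSet Λ).isCompact_biUnion fun q hq =>
      (cb_compact q.2).image_of_continuousOn ((h.gc q.1).cont.mono ((h1 q hq).trans (ob_sub_cb _)))
  have h3 : {x | ∃ k, inK η κ k ∧ a k = x} ⊆ ⋃ q ∈ Λ, f q.1 '' (cb q.2 : Set E) := by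
    rintro _ ⟨k, hk, rfl⟩
    obtain ⟨q, hq, hN⟩ := h2 k hk
    refine mem_iUnion₂.2 ⟨q, hq, ?_⟩
    have hcl : IsClosed (f q.1 '' (cb q.2 : Set E)) :=
      ((cb_compact q.2).image_of_continuousOn
        ((h.gc q.1).cont.mono ((h1 q hq).trans (ob_sub_cb _)))).isClosed
    rw [← hcl.closure_eq, Metric.mem_closure_iff]
    intro ε hε
    obtain ⟨N, hN2⟩ := exists_nat_one_div_lt hε
    obtain ⟨l, hl1, hl2⟩ := hN N
    refine ⟨f q.1 (dn E l), ⟨_, ob_sub_cb _ hl1, rfl⟩, ?_⟩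
    have hl3 : F q.1 l k < 1 / ((N : ℝ) + 1) := hl2
    rw [h.mt q.1 l (h1 q hq (ob_sub_cb _ hl1))] at hl3
    rw [dist_comm]
    exact hl3.trans hN2
  intro x hx
  have h4 := closure_minimal h3 hQ.isClosed (h.rz.KS_closure κ hx)
  obtain ⟨q, hq, hxq⟩ := mem_iUnion₂.1 h4
  exact mem_iUnion.2 ⟨q.1, image_mono (h1 q hq) hxq⟩

theorem A_disjoint (W : List ((ℕ × ℕ × ℕ) × ℕ × ℕ)) : Disjoint (A₁ E W) (A₂ E W) := by
  rw [Set.disjoint_left]
  rintro η ⟨F, hF⟩ h2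
  obtain ⟨X, _, _, a, hr⟩ := hF.1.1.exists_Rz
  obtain ⟨f, hf⟩ := hF.1.exists_f hr
  obtain ⟨g, ⟨U, hU, hg⟩, him, hsat⟩ := (BW_iff hf W).1 hF
  obtain ⟨κ, hκ, hgκ⟩ := hr.exists_KS hU hg
  obtain ⟨i, hi⟩ := mem_iUnion.1 (mem_iInter.1 h2 κ)
  cases i
  · obtain ⟨F', h3, h4, h5⟩ := hi
    obtain ⟨f', hf'⟩ := h3.exists_f hr
    exact h5 ((BW_iff hf' W).2 ⟨g, ⟨U, hU, hg⟩, fun x hx => hf'.cv_sub h4 (hgκ x hx), hsat⟩)
  · exact hi hκ

theorem RF.cv [CompleteSpace X] (h : RF η F X a f) (hcov : (⋃ i, f i '' (ob b₀ : Set E)) = univ)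
    {κ : List (ℕ × ℕ)} (hκ : TB η κ) : CV E κ (η, F) := by
  set T : Set X := closure {x | ∃ k, inK η κ k ∧ a k = x} with hT
  have hTB : TotallyBounded T := by
    refine TotallyBounded.closure ?_
    rw [Metric.totallyBounded_iff]
    intro ε hε
    obtain ⟨N, hN⟩ := exists_nat_one_div_lt hε
    obtain ⟨S, hS⟩ := hκ N
    refine ⟨a '' S, S.finite_toSet.image a, ?_⟩
    rintro _ ⟨k, hk, rfl⟩
    obtain ⟨m, hm, hmk⟩ := hS k hk
    refine mem_iUnion₂.2 ⟨a m, ⟨m, hm, rfl⟩, ?_⟩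
    rw [Metric.mem_ball, dist_comm, h.rz.dst]
    exact hmk.trans hN
  have hcpt : IsCompact T := hTB.isCompact_of_isClosed isClosed_closure
  have hlist : ∃ Λ : List (ℕ × (ℕ × ℕ × ℕ)), (∀ q ∈ Λ, (cb q.2 : Set E) ⊆ ob b₀) ∧
      ∀ x ∈ T, ∃ q ∈ Λ, x ∈ f q.1 '' (cb q.2 : Set E) := by
    refine hcpt.induction_on (p := fun S => ∃ Λ : List (ℕ × (ℕ × ℕ × ℕ)),
      (∀ q ∈ Λ, (cb q.2 : Set E) ⊆ ob b₀) ∧ ∀ x ∈ S, ∃ q ∈ Λ, x ∈ f q.1 '' (cb q.2 : Set E))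
      ?_ ?_ ?_ ?_
    · exact ⟨[], by simp, by simp⟩
    · rintro S S' hSS ⟨Λ, h1, h2⟩
      exact ⟨Λ, h1, fun x hx => h2 x (hSS hx)⟩
    · rintro S S' ⟨Λ, h1, h2⟩ ⟨Λ', h3, h4⟩
      refine ⟨Λ ++ Λ', ?_, ?_⟩
      · intro q hq
        rcases List.mem_append.1 hq with h5 | h5
        · exact h1 q h5
        · exact h3 q h5
      · rintro x (hx | hx)
        · obtain ⟨q, hq, hxq⟩ := h2 x hx
          exact ⟨q, List.mem_append.2 (Or.inl hq), hxq⟩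
        · obtain ⟨q, hq, hxq⟩ := h4 x hx
          exact ⟨q, List.mem_append.2 (Or.inr hq), hxq⟩
    · intro x _
      have hx : x ∈ ⋃ i, f i '' (ob b₀ : Set E) := by rw [hcov]; trivial
      obtain ⟨i, y, hy, hyx⟩ := mem_iUnion.1 hx
      obtain ⟨b'', _, hb1, hb2⟩ := exists_rb 0 ((ob_open (E := E) b₀).mem_nhds hy)
      have ho : IsOpen (f i '' ob b'') := (h.gc i).img _ ((ob_sub_cb _).trans hb2) (ob_open _)
      refine ⟨f i '' ob b'', mem_nhdsWithin_of_mem_nhds (ho.mem_nhds ⟨y, hb1, hyx⟩),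
        [(i, b'')], ?_, ?_⟩
      · intro q hq
        rw [List.mem_singleton.1 hq]
        exact hb2
      · rintro z ⟨w, hw, rfl⟩
        exact ⟨(i, b''), List.mem_singleton.2 rfl, w, ob_sub_cb _ hw, rfl⟩
  obtain ⟨Λ, h1, h2⟩ := hlist
  refine ⟨Λ, h1, fun k hk => ?_⟩
  obtain ⟨q, hq, y, hy, hyk⟩ := h2 (a k) (subset_closure ⟨k, hk, rfl⟩)
  refine ⟨q, hq, fun N => ?_⟩
  obtain ⟨l, hl1, _, hl3⟩ := (h.gc q.1).cont_near ((h1 q hq).trans (ob_sub_cb _)) hy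
    (ε := 1 / ((N : ℝ) + 1)) (by positivity) one_pos
  refine ⟨l, hl1, ?_⟩
  show F q.1 l k < _
  rw [h.mt q.1 l (h1 q hq (ob_sub_cb _ hl1)), ← hyk]
  exact hl3

/-- The existence of test charts is a Borel condition. -/
theorem exists_BS (E : Type) [NormedAddCommGroup E] [NormedSpace ℝ E] [FiniteDimensional ℝ E] :
    ∃ B : List ((ℕ × ℕ × ℕ) × ℕ × ℕ) → Set Et, (∀ W, MeasurableSet (B W)) ∧
      ∀ (X : Type) [MetricSpace X] [CompleteSpace X] (a : ℕ → X) (η : Et) (f : ℕ → E → X),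
        Rz η X a → (∀ i, GC (f i)) → (⋃ i, f i '' (ob b₀ : Set E)) = univ →
        ∀ W, η ∈ B W ↔ ∃ g : E → X, TC g ∧ Sat a g W := by
  have h1 : ∀ W : List ((ℕ × ℕ × ℕ) × ℕ × ℕ), MeasurablySeparable (A₁ E W) (A₂ E W) :=
    fun W => (A₁_analytic W).measurablySeparable (A₂_analytic W) (A_disjoint W)
  choose B hB1 hB2 hB3 using h1
  refine ⟨B, hB3, ?_⟩
  intro X _ _ a η f hr hgc hcov W
  set F : ℕ → ℕ → ℕ → ℝ := fun i k m => dist (f i (dn E k)) (a m) with hF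
  have hf : RF η F X a f := ⟨hr, hgc, fun i k _ m => rfl⟩
  constructor
  · intro hη
    have h2 : η ∈ A₁ E W := by
      by_contra hn
      have h3 : η ∈ A₂ E W := by
        refine mem_iInter.2 fun κ => mem_iUnion.2 ?_
        by_cases hκ : TB η κ
        · exact ⟨false, F, hf.gf, hf.cv hcov hκ, fun h => hn ⟨F, h⟩⟩
        · exact ⟨true, hκ⟩
      exact Set.disjoint_left.1 (hB2 W) h3 hη
    obtain ⟨F', hF'⟩ := h2
    obtain ⟨f', hf'⟩ := hF'.1.exists_f hr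
    obtain ⟨g, hg, _, hsat⟩ := (BW_iff hf' W).1 hF'
    exact ⟨g, hg, hsat⟩
  · rintro ⟨g, hg, hsat⟩
    exact hB1 W ⟨F, (BW_iff hf W).2 ⟨g, hg, fun x _ => by rw [hcov]; trivial, hsat⟩⟩

end Pool.Agent.H655.MC
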