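import Pool.Agent.H655.MC.Fin
import Pool.Agent.H655.GR.Graph
import Pool.Agent.H655.TM.Red

/-!
Metric codes of complete manifolds are classified by countable graphs.
-/

open Set Filter Topology MeasureTheory

namespace Pool.Agent.H655.MC

open Pool.Agent.H655.CM

/-- Complete manifolds, given by metric codes, are classified by countable structures. -/
theorem metric_structures (E : Type) [NormedAddCommGroup E] [NormedSpace ℝ E]
    [FiniteDimensional ℝ E] :
    ∃ R : Et → ℕ → ℕ → ℕ → Prop, Measurable R ∧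
      ∀ (X Y : Type) [MetricSpace X] [CompleteSpace X] [MetricSpace Y] [CompleteSpace Y]
      [ChartedSpace E X] [ChartedSpace E Y] (a : ℕ → X) (a' : ℕ → Y) (η η' : Et),
      Rz η X a → Rz η' Y a' → (Nonempty (X ≃ₜ Y) ↔
        ∃ σ : ℕ ≃ ℕ, ∀ j a b, R η j a b ↔ R η' j (σ a) (σ b)) := by
  obtain ⟨Φ, hΦ, hc⟩ := exists_code E
  refine ⟨fun η => TM.relC (Φ η), TM.meas_relC.comp hΦ, ?_⟩
  intro X Y _ _ _ _ _ _ a a' η η' h h'
  obtain ⟨e⟩ := hc X a η h
  obtain ⟨e'⟩ := hc Y a' η' h'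
  rw [← TM.relC_iff]
  exact ⟨fun ⟨u⟩ => ⟨(e.symm.trans u).trans e'⟩, fun ⟨u⟩ => ⟨(e.trans u).trans e'.symm⟩⟩

/-- Complete manifolds, given by metric codes, are classified by countable graphs. -/
theorem metric_graph (E : Type) [NormedAddCommGroup E] [NormedSpace ℝ E]
    [FiniteDimensional ℝ E] :
    ∃ G : Et → ℕ → ℕ → Prop, (∀ i j, Measurable fun η => G η i j) ∧
      (∀ η i j, G η i j → G η j i) ∧ (∀ η i, ¬ G η i i) ∧
      ∀ (X Y : Type) [MetricSpace X] [CompleteSpace X] [MetricSpace Y] [CompleteSpace Y]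
      [ChartedSpace E X] [ChartedSpace E Y] (a : ℕ → X) (a' : ℕ → Y) (η η' : Et),
      Rz η X a → Rz η' Y a' → (Nonempty (X ≃ₜ Y) ↔
        ∃ σ : ℕ ≃ ℕ, ∀ i j, G η (σ i) (σ j) ↔ G η' i j) := by
  obtain ⟨R, hR, hc⟩ := metric_structures E
  refine ⟨fun η => GR.Gr (R η), ?_, fun η i j h => GR.Gr_symm h, fun η i => GR.Gr_irrefl i, ?_⟩
  · intro i j
    refine GR.meas_Gr (F := R) (fun j a b => ?_) i j
    exact (measurable_pi_apply b).comp ((measurable_pi_apply a).comp
      ((measurable_pi_apply j).comp hR))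
  · intro X Y _ _ _ _ _ _ a a' η η' h h'
    rw [hc X Y a a' η η' h h', GR.Gr_iff]
    constructor
    · rintro ⟨σ, hσ⟩
      refine ⟨σ.symm, fun i j => ?_⟩
      have h1 := hσ (σ.symm i) (σ.symm j)
      rw [σ.apply_symm_apply, σ.apply_symm_apply] at h1
      exact h1
    · rintro ⟨σ, hσ⟩
      refine ⟨σ.symm, fun i j => ?_⟩
      have h1 := hσ (σ.symm i) (σ.symm j)
      rw [σ.apply_symm_apply, σ.apply_symm_apply] at h1
      exact h1

end Pool.Agent.H655.MC
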